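import Mathlib

/-!
Definitions for random `k`-SAT and `i`-maximal satisfying assignments.
The variables are `Fin n`; a literal is a pair (variable, sign), the literal `(v, b)` being true
under the assignment `A` iff `A v = b`.
-/

namespace Pool.Agent.Work.MP_41c404_pr

open Finset Filter

/-- The `k`-clauses on `n` variables: sets of `k` literals on `k` distinct variables. -/
def clauses (k n : ℕ) : Finset (Finset (Fin n × Bool)) :=
  univ.filter fun c => c.card = k ∧ (c.image Prod.fst).card = k

/-- The formulas made of `M` distinct `k`-clauses on `n` variables. -/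
def formulas (k n M : ℕ) : Finset (Finset (Finset (Fin n × Bool))) :=
  (clauses k n).powersetCard M

/-- `A` satisfies the conjunction `F` of clauses. -/
def Sat {n : ℕ} (F : Finset (Finset (Fin n × Bool))) (A : Fin n → Bool) : Prop :=
  ∀ c ∈ F, ∃ l ∈ c, A l.1 = l.2

/-- Lexicographic order: `A'` is larger than `A`. -/
def LexGt {n : ℕ} (A' A : Fin n → Bool) : Prop :=
  ∃ r : Fin n, (∀ j < r, A' j = A j) ∧ A' r = true ∧ A r = false

/-- `A` is an `i`-maximal satisfying assignment of `F`. -/
def IsMaximal {n : ℕ} (i : ℕ) (F : Finset (Finset (Fin n × Bool))) (A : Fin n → Bool) : Prop :=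
  Sat F A ∧ ¬ ∃ A' : Fin n → Bool, Sat F A' ∧ LexGt A' A ∧ hammingDist A' A ≤ i

open scoped Classical in
/-- `X_i(F)`, the number of `i`-maximal satisfying assignments. -/
noncomputable def numMaximal {n : ℕ} (i : ℕ) (F : Finset (Finset (Fin n × Bool))) : ℕ :=
  (univ.filter fun A : Fin n → Bool => IsMaximal i F A).card

open scoped Classical in
/-- Probability that a uniformly random set of `M` distinct `k`-clauses is satisfiable. -/
noncomputable def satProb (k n M : ℕ) : ℝ :=
  (((formulas k n M).filter fun F => ∃ A, Sat F A).card : ℝ) / ((formulas k n M).card : ℝ)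

/-- `E[X_i(F)]` for a uniformly random set `F` of `M` distinct `k`-clauses. -/
noncomputable def expMaximal (k i n M : ℕ) : ℝ :=
  (∑ F ∈ formulas k n M, (numMaximal i F : ℝ)) / ((formulas k n M).card : ℝ)

/-- The satisfiability threshold `d_k`. -/
noncomputable def satThreshold (k : ℕ) : ℝ :=
  sSup {d : ℝ | 0 ≤ d ∧ Tendsto (fun n : ℕ => satProb k n ⌊d * n⌋₊) atTop (nhds 1)}

/-- `E[X_i]` is exponentially large in `n` at density `d`. -/
def ExpLarge (k i : ℕ) (d : ℝ) : Prop :=
  ∃ c : ℝ, 0 < c ∧ ∀ᶠ n : ℕ in atTop, Real.exp (c * n) ≤ expMaximal k i n ⌊d * n⌋₊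

/-- `E[X_i]` is exponentially small in `n` at density `d`. -/
def ExpSmall (k i : ℕ) (d : ℝ) : Prop :=
  ∃ c : ℝ, 0 < c ∧ ∀ᶠ n : ℕ in atTop, expMaximal k i n ⌊d * n⌋₊ ≤ Real.exp (-(c * n))

/-- Critical density, read from below: the supremum of the densities where `E[X_i]` is
exponentially large. -/
noncomputable def critLarge (k i : ℕ) : ℝ :=
  sSup {d : ℝ | 0 ≤ d ∧ ExpLarge k i d}

/-- Critical density, read from above: the least `D` such that `E[X_i]` is exponentially small at
every density above `D`. -/
noncomputable def critSmall (k i : ℕ) : ℝ :=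
  sInf {D : ℝ | ∀ d : ℝ, D < d → ExpSmall k i d}

end Pool.Agent.Work.MP_41c404_pr
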