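import Mathlib
import Pool.Agent.Work.MP_41c404_pr.Defs

-- merged part: Pool.Agent.Work.MP_41c404_pr.Finite
section
-- merged part: Pool.Agent.Work.MP_41c404_pr.Count
section
/-! Binomial coefficient inequalities. -/

namespace Pool.Agent.Work.MP_41c404_pr

open Finset

theorem choose_mul_pow_le (a b M : ℕ) (h : a ≤ b) :
    a.choose M * b ^ M ≤ b.choose M * a ^ M := by
  induction M with
  | zero => simp
  | succ M ih =>
    have h1 := Nat.choose_succ_right_eq a M
    have h2 := Nat.choose_succ_right_eq b M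
    have key : (a - M) * b ≤ (b - M) * a := by
      rcases le_total M a with hMa | hMa
      · obtain ⟨x, rfl⟩ := Nat.exists_eq_add_of_le hMa
        obtain ⟨y, rfl⟩ := Nat.exists_eq_add_of_le h
        have e1 : M + x - M = x := by omega
        have e2 : M + x + y - M = x + y := by omega
        rw [e1, e2]; linarith only [Nat.zero_le (M * y)]
      · have : a - M = 0 := by omega
        simp [this]
    have : (a.choose (M + 1) * b ^ (M + 1)) * (M + 1) ≤
        (b.choose (M + 1) * a ^ (M + 1)) * (M + 1) := by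
      calc (a.choose (M + 1) * b ^ (M + 1)) * (M + 1)
          = (a.choose (M + 1) * (M + 1)) * b ^ M * b := by ring
        _ = (a.choose M * b ^ M) * ((a - M) * b) := by rw [h1]; ring
        _ ≤ (b.choose M * a ^ M) * ((b - M) * a) := Nat.mul_le_mul ih key
        _ = (b.choose M * (b - M)) * a ^ M * a := by ring
        _ = (b.choose (M + 1) * a ^ (M + 1)) * (M + 1) := by rw [← h2]; ring
    exact Nat.le_of_mul_le_mul_right this (Nat.succ_pos M)

theorem choose_mul_sub_pow_le (a b M : ℕ) :
    b.choose M * (a - M) ^ M ≤ a.choose M * b ^ M := by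
  have h1 : (b.choose M : ℚ) ≤ (b : ℚ) ^ M / M.factorial := Nat.choose_le_pow_div M b
  have h2 : ((a + 1 - M : ℕ) : ℚ) ^ M / M.factorial ≤ (a.choose M : ℚ) := Nat.pow_le_choose M a
  have h3 : ((a - M : ℕ) : ℚ) ^ M ≤ ((a + 1 - M : ℕ) : ℚ) ^ M := by
    apply pow_le_pow_left₀ (by positivity)
    exact_mod_cast (by omega : a - M ≤ a + 1 - M)
  have hf : (0 : ℚ) < M.factorial := by exact_mod_cast M.factorial_pos
  have : (b.choose M : ℚ) * ((a - M : ℕ) : ℚ) ^ M ≤ (a.choose M : ℚ) * (b : ℚ) ^ M := by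
    calc (b.choose M : ℚ) * ((a - M : ℕ) : ℚ) ^ M
        ≤ ((b : ℚ) ^ M / M.factorial) * ((a + 1 - M : ℕ) : ℚ) ^ M := by gcongr
      _ = (((a + 1 - M : ℕ) : ℚ) ^ M / M.factorial) * (b : ℚ) ^ M := by ring
      _ ≤ _ := by gcongr
  exact_mod_cast this

theorem choose_logConcave (a b c M : ℕ) (h1 : a * c ≤ b ^ 2) (h2 : 2 * b ≤ a + c) :
    a.choose M * c.choose M ≤ b.choose M ^ 2 := by
  induction M with
  | zero => simp
  | succ M ih =>
    have ha := Nat.choose_succ_right_eq a M
    have hb := Nat.choose_succ_right_eq b M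
    have hc := Nat.choose_succ_right_eq c M
    have key : (a - M) * (c - M) ≤ (b - M) ^ 2 := by
      rcases le_total M a with hMa | hMa
      · rcases le_total M c with hMc | hMc
        · have hMb : M ≤ b := by
            by_contra hlt
            push Not at hlt
            have : M * M ≤ a * c := Nat.mul_le_mul hMa hMc
            nlinarith only [h1, hMa, hMc, hlt, h2]
          obtain ⟨x, rfl⟩ := Nat.exists_eq_add_of_le hMa
          obtain ⟨y, rfl⟩ := Nat.exists_eq_add_of_le hMc
          obtain ⟨z, rfl⟩ := Nat.exists_eq_add_of_le hMb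
          simp only [Nat.add_sub_cancel_left]
          have h3 : 2 * z ≤ x + y := by omega
          linarith only [h1, h3, Nat.mul_le_mul_left M h3]
        · have : c - M = 0 := by omega
          simp [this]
      · have : a - M = 0 := by omega
        simp [this]
    have : (a.choose (M + 1) * c.choose (M + 1)) * (M + 1) ^ 2 ≤
        b.choose (M + 1) ^ 2 * (M + 1) ^ 2 := by
      calc (a.choose (M + 1) * c.choose (M + 1)) * (M + 1) ^ 2
          = (a.choose (M + 1) * (M + 1)) * (c.choose (M + 1) * (M + 1)) := by ring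
        _ = (a.choose M * c.choose M) * ((a - M) * (c - M)) := by rw [ha, hc]; ring
        _ ≤ b.choose M ^ 2 * (b - M) ^ 2 := Nat.mul_le_mul ih key
        _ = (b.choose M * (b - M)) ^ 2 := by ring
        _ = _ := by rw [← hb]; ring
    exact Nat.le_of_mul_le_mul_right this (by positivity)

theorem choose_convex_aux (k m a b : ℕ) (h : a ≤ b) :
    (a + m).choose k + b.choose k ≤ (b + m).choose k + a.choose k := by
  induction m with
  | zero => simp [add_comm]
  | succ m ih =>
    cases k with
    | zero => simp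
    | succ k =>
      have e1 : (a + (m + 1)).choose (k + 1) = (a + m).choose k + (a + m).choose (k + 1) :=
        Nat.choose_succ_succ' _ _
      have e2 : (b + (m + 1)).choose (k + 1) = (b + m).choose k + (b + m).choose (k + 1) :=
        Nat.choose_succ_succ' _ _
      have e3 : (a + m).choose k ≤ (b + m).choose k := Nat.choose_le_choose k (by omega)
      omega

/-- Log-concavity of `n ↦ choose (c * choose n k) M` along a three-term progression. -/
theorem total_logConcave (c k n m M : ℕ) :
    (c * n.choose k).choose M * (c * (n + 2 * m).choose k).choose M ≤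
      (c * (n + m).choose k).choose M ^ 2 := by
  apply choose_logConcave
  · have := choose_logConcave n (n + m) (n + 2 * m) k (by linarith only [Nat.zero_le (m * m), mul_self_nonneg ↑m])
      (by omega)
    calc c * n.choose k * (c * (n + 2 * m).choose k)
        = c ^ 2 * (n.choose k * (n + 2 * m).choose k) := by ring
      _ ≤ c ^ 2 * (n + m).choose k ^ 2 := Nat.mul_le_mul_left _ this
      _ = _ := by ring
  · have := choose_convex_aux k m n (n + m) (by omega)
    have e : n + m + m = n + 2 * m := by ring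
    rw [e] at this
    calc 2 * (c * (n + m).choose k) = c * ((n + m).choose k + (n + m).choose k) := by ring
      _ ≤ c * ((n + 2 * m).choose k + n.choose k) := Nat.mul_le_mul_left _ this
      _ = _ := by ring

theorem choose_add_lower (a ν m : ℕ) (h : ν ≤ a) :
    a.choose ν * a ^ m ≤ (a + m).choose ν * (a + m - ν) ^ m := by
  have gen : ∀ j ≤ m, a.choose ν * a ^ j ≤ (a + j).choose ν * (a + m - ν) ^ j := by
    intro j
    induction j with
    | zero => simp
    | succ j ih =>
      intro hj
      have ih' := ih (by omega)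
      have e := Nat.choose_mul_succ_eq (a + j) ν
      calc a.choose ν * a ^ (j + 1) = (a.choose ν * a ^ j) * a := by ring
        _ ≤ ((a + j).choose ν * (a + m - ν) ^ j) * (a + j + 1) :=
            Nat.mul_le_mul ih' (by omega)
        _ = ((a + j).choose ν * (a + j + 1)) * (a + m - ν) ^ j := by ring
        _ = ((a + j + 1).choose ν * (a + j + 1 - ν)) * (a + m - ν) ^ j := by rw [e]
        _ ≤ ((a + j + 1).choose ν * (a + m - ν)) * (a + m - ν) ^ j := by
            apply Nat.mul_le_mul_right
            apply Nat.mul_le_mul_left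
            omega
        _ = (a + (j + 1)).choose ν * (a + m - ν) ^ (j + 1) := by
            rw [← add_assoc]; ring
  exact gen m le_rfl

theorem choose_second_diff (ν g m : ℕ) :
    (ν + g + m).choose ν ^ 2 * g ^ m ≤
      (ν + g).choose ν * (ν + g + 2 * m).choose ν * (g + m) ^ m := by
  have gen : ∀ j, (ν + g + m).choose ν * (ν + g + j).choose ν * g ^ j ≤
      (ν + g).choose ν * (ν + g + m + j).choose ν * (g + m) ^ j := by
    intro j
    induction j with
    | zero => simp [mul_comm]
    | succ j ih =>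
      have e1 := Nat.choose_mul_succ_eq (ν + g + j) ν
      have e2 := Nat.choose_mul_succ_eq (ν + g + m + j) ν
      have s1 : ν + g + j + 1 - ν = g + j + 1 := by omega
      have s2 : ν + g + m + j + 1 - ν = g + m + j + 1 := by omega
      rw [s1] at e1
      rw [s2] at e2
      have key : (ν + g + j + 1) * g * (g + m + j + 1) ≤
          (ν + g + m + j + 1) * (g + m) * (g + j + 1) := by
        have t1 : g * (g + m + j + 1) ≤ (g + m) * (g + j + 1) := by
          linarith only [Nat.zero_le (m * j), Nat.zero_le m]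
        calc (ν + g + j + 1) * g * (g + m + j + 1) = (ν + g + j + 1) * (g * (g + m + j + 1)) := by
              ring
          _ ≤ (ν + g + m + j + 1) * ((g + m) * (g + j + 1)) := Nat.mul_le_mul (by omega) t1
          _ = _ := by ring
      have : ((ν + g + m).choose ν * (ν + g + (j + 1)).choose ν * g ^ (j + 1)) *
            ((g + j + 1) * (g + m + j + 1)) ≤
          ((ν + g).choose ν * (ν + g + m + (j + 1)).choose ν * (g + m) ^ (j + 1)) *
            ((g + j + 1) * (g + m + j + 1)) := by
        calc ((ν + g + m).choose ν * (ν + g + (j + 1)).choose ν * g ^ (j + 1)) *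
              ((g + j + 1) * (g + m + j + 1))
            = (ν + g + m).choose ν * ((ν + g + j + 1).choose ν * (g + j + 1)) * g ^ j *
                (g * (g + m + j + 1)) := by rw [← add_assoc]; ring
          _ = ((ν + g + m).choose ν * (ν + g + j).choose ν * g ^ j) *
                ((ν + g + j + 1) * g * (g + m + j + 1)) := by rw [← e1]; ring
          _ ≤ ((ν + g).choose ν * (ν + g + m + j).choose ν * (g + m) ^ j) *
                ((ν + g + m + j + 1) * (g + m) * (g + j + 1)) := Nat.mul_le_mul ih key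
          _ = (ν + g).choose ν * ((ν + g + m + j).choose ν * (ν + g + m + j + 1)) *
                (g + m) ^ (j + 1) * (g + j + 1) := by ring
          _ = _ := by rw [e2, ← add_assoc]; ring
      exact Nat.le_of_mul_le_mul_right this (by positivity)
  have := gen m
  have e : ν + g + m + m = ν + g + 2 * m := by ring
  rw [e] at this
  calc _ = (ν + g + m).choose ν * (ν + g + m).choose ν * g ^ m := by ring
    _ ≤ _ := this

/-- Real form: avoiding `K` of `N` objects. -/
theorem choose_sub_le_exp (N K M : ℕ) :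
    ((N - K).choose M : ℝ) ≤ (N.choose M : ℝ) * Real.exp (-((K : ℝ) / N * M)) := by
  rcases Nat.eq_zero_or_pos N with rfl | hN
  · simp
  rcases le_total K N with hK | hK
  · have h := choose_mul_pow_le (N - K) N M (Nat.sub_le _ _)
    have h' : ((N - K).choose M : ℝ) * (N : ℝ) ^ M ≤ (N.choose M : ℝ) * ((N : ℝ) - K) ^ M := by
      have : (((N - K).choose M * N ^ M : ℕ) : ℝ) ≤ ((N.choose M * (N - K) ^ M : ℕ) : ℝ) := by
        exact_mod_cast h
      push_cast [Nat.cast_sub hK] at this
      exact this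
    have hNr : (0 : ℝ) < N := by exact_mod_cast hN
    have hKr : (K : ℝ) ≤ N := by exact_mod_cast hK
    have h1 : (N : ℝ) - K ≤ N * Real.exp (-((K : ℝ) / N)) := by
      have := Real.add_one_le_exp (-((K : ℝ) / N))
      have e : (N : ℝ) - K = N * (-((K : ℝ) / N) + 1) := by field_simp; ring
      rw [e]; gcongr
    have h2 : ((N : ℝ) - K) ^ M ≤ (N : ℝ) ^ M * Real.exp (-((K : ℝ) / N * M)) := by
      calc ((N : ℝ) - K) ^ M ≤ (N * Real.exp (-((K : ℝ) / N))) ^ M :=
            pow_le_pow_left₀ (by linarith only [hKr]) h1 M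
        _ = _ := by rw [mul_pow, ← Real.exp_nat_mul]; congr 2; ring
    have hp : (0 : ℝ) < (N : ℝ) ^ M := by positivity
    have : ((N - K).choose M : ℝ) * (N : ℝ) ^ M ≤
        ((N.choose M : ℝ) * Real.exp (-((K : ℝ) / N * M))) * (N : ℝ) ^ M := by
      calc _ ≤ (N.choose M : ℝ) * ((N : ℝ) - K) ^ M := h'
        _ ≤ (N.choose M : ℝ) * ((N : ℝ) ^ M * Real.exp (-((K : ℝ) / N * M))) := by gcongr
        _ = _ := by ring
    exact le_of_mul_le_mul_right this hp
  · have : N - K = 0 := by omega
    rw [this]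
    rcases Nat.eq_zero_or_pos M with rfl | hM
    · simp
    · rw [Nat.choose_eq_zero_of_lt hM, Nat.cast_zero]; positivity

/-- Number of subsets of size at most `s`. -/
theorem card_small_subsets (n s : ℕ) (t : ℝ) (ht : 0 < t) (ht1 : t ≤ 1) :
    (((univ : Finset (Finset (Fin n))).filter fun S => S.card ≤ s).card : ℝ) * t ^ s ≤
      (1 + t) ^ n := by
  have h := Finset.prod_add_one (s := (univ : Finset (Fin n))) (f := fun _ => t)
  simp only [prod_const, card_univ, Fintype.card_fin, powerset_univ] at h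
  rw [add_comm, h]
  calc (((univ : Finset (Finset (Fin n))).filter fun S => S.card ≤ s).card : ℝ) * t ^ s
      = ∑ S ∈ (univ : Finset (Finset (Fin n))).filter fun S => S.card ≤ s, t ^ s := by
        simp
    _ ≤ ∑ S ∈ (univ : Finset (Finset (Fin n))).filter fun S => S.card ≤ s, t ^ S.card := by
        apply sum_le_sum
        intro S hS
        exact pow_le_pow_of_le_one ht.le ht1 (mem_filter.1 hS).2
    _ ≤ _ := sum_le_sum_of_subset_of_nonneg (filter_subset _ _) (fun _ _ _ => by positivity)

end Pool.Agent.Work.MP_41c404_pr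
end

-- merged part: Pool.Agent.Work.MP_41c404_pr.Clauses
section
/-! Counting clauses. -/

namespace Pool.Agent.Work.MP_41c404_pr

open Finset

variable {n : ℕ}

/-- The clause with variable set `T` and signs `s`. -/
def mkCl (T : Finset (Fin n)) (s : Fin n → Bool) : Finset (Fin n × Bool) :=
  T.image fun v => (v, s v)

theorem mem_mkCl {T : Finset (Fin n)} {s : Fin n → Bool} {l : Fin n × Bool} :
    l ∈ mkCl T s ↔ l.1 ∈ T ∧ l.2 = s l.1 := by
  unfold mkCl
  simp only [mem_image]
  constructor
  · rintro ⟨v, hv, rfl⟩; exact ⟨hv, rfl⟩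
  · rintro ⟨h1, h2⟩; exact ⟨l.1, h1, by rw [← h2]⟩

theorem image_fst_mkCl (T : Finset (Fin n)) (s : Fin n → Bool) :
    (mkCl T s).image Prod.fst = T := by
  unfold mkCl
  rw [image_image]
  exact image_id'

theorem card_mkCl (T : Finset (Fin n)) (s : Fin n → Bool) : (mkCl T s).card = T.card := by
  unfold mkCl
  apply card_image_of_injective
  intro a b h
  exact congrArg Prod.fst h

theorem mem_clauses {k : ℕ} {c : Finset (Fin n × Bool)} :
    c ∈ clauses k n ↔ c.card = k ∧ (c.image Prod.fst).card = k := by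
  simp [clauses]

theorem mkCl_mem {k : ℕ} {T : Finset (Fin n)} (s : Fin n → Bool) (h : T.card = k) :
    mkCl T s ∈ clauses k n := by
  rw [mem_clauses, card_mkCl, image_fst_mkCl]; exact ⟨h, h⟩

theorem eq_mkCl_of_mem {k : ℕ} {c : Finset (Fin n × Bool)} (_hc : c ∈ clauses k n)
    (s : Fin n → Bool) (hs : ∀ l ∈ c, l.2 = s l.1) : c = mkCl (c.image Prod.fst) s := by
  ext l
  rw [mem_mkCl]
  constructor
  · intro hl; exact ⟨mem_image_of_mem _ hl, hs l hl⟩
  · rintro ⟨h1, h2⟩
    obtain ⟨l', hl', e⟩ := mem_image.1 h1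
    have : l' = l := Prod.ext e (by rw [hs l' hl', h2, e])
    rwa [← this]

theorem injOn_fst_of_mem {k : ℕ} {c : Finset (Fin n × Bool)} (hc : c ∈ clauses k n) :
    Set.InjOn Prod.fst (c : Set (Fin n × Bool)) := by
  rw [mem_clauses] at hc
  exact card_image_iff.1 (by rw [hc.1, hc.2])

theorem card_clauses (k n : ℕ) : (clauses k n).card = 2 ^ k * n.choose k := by
  have h := card_eq_sum_card_fiberwise (s := clauses k n)
    (t := (univ : Finset (Fin n)).powersetCard k) (f := fun c => c.image Prod.fst) (by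
      intro c hc
      exact mem_coe.2 (mem_powersetCard.2 ⟨subset_univ _, (mem_clauses.1 hc).2⟩))
  rw [h]
  have : ∀ T ∈ (univ : Finset (Fin n)).powersetCard k,
      ((clauses k n).filter fun c => c.image Prod.fst = T).card = 2 ^ k := by
    intro T hT
    have hTk : T.card = k := (mem_powersetCard.1 hT).2
    rw [← hTk, ← card_powerset]
    symm
    apply card_bij (fun P _ => mkCl T fun v => decide (v ∈ P))
    · intro P _
      rw [mem_filter]
      exact ⟨mkCl_mem _ rfl, image_fst_mkCl _ _⟩
    · intro P hP Q hQ e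
      ext v
      constructor
      · intro hv
        have h1 : (v, true) ∈ mkCl T fun v => decide (v ∈ P) :=
          mem_mkCl.2 ⟨mem_powerset.1 hP hv, by simp [hv]⟩
        rw [e, mem_mkCl] at h1
        simpa using h1.2
      · intro hv
        have h1 : (v, true) ∈ mkCl T fun v => decide (v ∈ Q) :=
          mem_mkCl.2 ⟨mem_powerset.1 hQ hv, by simp [hv]⟩
        rw [← e, mem_mkCl] at h1
        simpa using h1.2
    · intro c hc
      rw [mem_filter] at hc
      refine ⟨T.filter fun v => (v, true) ∈ c, mem_powerset.2 (filter_subset _ _), ?_⟩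
      have hinj := injOn_fst_of_mem hc.1
      symm
      rw [← hc.2]
      apply eq_mkCl_of_mem hc.1
      intro l hl
      have hl1 : l.1 ∈ c.image Prod.fst := mem_image_of_mem _ hl
      cases hb : l.2 with
      | true =>
        have : (l.1, true) ∈ c := by rw [← hb]; exact hl
        simp [this, hl1]
      | false =>
        have : (l.1, true) ∉ c := by
          intro h'
          have := hinj (mem_coe.2 h') (mem_coe.2 hl) rfl
          have := congrArg Prod.snd this
          simp [hb] at this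
        simp [this]
  rw [sum_congr rfl this]
  simp [mul_comm]

/-- The clauses with variables in `U` all of whose literals are false under `σ`. -/
def viol (k : ℕ) (U : Finset (Fin n)) (σ : Fin n → Bool) : Finset (Finset (Fin n × Bool)) :=
  (U.powersetCard k).image fun T => mkCl T fun v => !σ v

theorem card_viol (k : ℕ) (U : Finset (Fin n)) (σ : Fin n → Bool) :
    (viol k U σ).card = U.card.choose k := by
  unfold viol
  rw [card_image_of_injective, card_powersetCard]
  intro T T' h
  have := congrArg (fun c => Finset.image Prod.fst c) h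
  simpa [image_fst_mkCl] using this

theorem viol_subset (k : ℕ) (U : Finset (Fin n)) (σ : Fin n → Bool) :
    viol k U σ ⊆ clauses k n := by
  intro c hc
  obtain ⟨T, hT, rfl⟩ := mem_image.1 hc
  exact mkCl_mem _ (mem_powersetCard.1 hT).2

theorem mem_viol {k : ℕ} {U : Finset (Fin n)} {σ : Fin n → Bool} {c : Finset (Fin n × Bool)}
    (hc : c ∈ viol k U σ) : ∀ l ∈ c, l.1 ∈ U ∧ σ l.1 ≠ l.2 := by
  obtain ⟨T, hT, rfl⟩ := mem_image.1 hc
  intro l hl
  rw [mem_mkCl] at hl
  refine ⟨(mem_powersetCard.1 hT).1 hl.1, ?_⟩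
  rw [hl.2]; simp

theorem sat_iff_disjoint {k : ℕ} {F : Finset (Finset (Fin n × Bool))} (hF : F ⊆ clauses k n)
    (σ : Fin n → Bool) : Sat F σ ↔ Disjoint F (viol k univ σ) := by
  rw [disjoint_left]
  constructor
  · intro h c hc hv
    obtain ⟨l, hl, e⟩ := h c hc
    exact (mem_viol hv l hl).2 e
  · intro h c hc
    by_contra hne
    push Not at hne
    apply h hc
    have := eq_mkCl_of_mem (hF hc) (fun v => !σ v) (by
      intro l hl
      have := hne l hl
      cases h1 : σ l.1 <;> cases h2 : l.2 <;> simp_all)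
    rw [this]
    exact mem_image.2 ⟨_, mem_powersetCard.2 ⟨subset_univ _, (mem_clauses.1 (hF hc)).2⟩, rfl⟩

theorem mem_formulas {k M : ℕ} {F : Finset (Finset (Fin n × Bool))} :
    F ∈ formulas k n M ↔ F ⊆ clauses k n ∧ F.card = M := mem_powersetCard

theorem card_formulas (k n M : ℕ) : (formulas k n M).card = (2 ^ k * n.choose k).choose M := by
  unfold formulas
  rw [card_powersetCard, card_clauses]

theorem card_powersetCard_disjoint {α : Type*} [DecidableEq α] (C B : Finset α) (M : ℕ)
    (hB : B ⊆ C) :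
    ((C.powersetCard M).filter fun F => Disjoint F B).card = (C.card - B.card).choose M := by
  rw [← card_sdiff_of_subset hB, ← card_powersetCard]
  congr 1
  ext F
  simp only [mem_filter, mem_powersetCard, subset_sdiff]
  tauto

/-- The clauses in which exactly one literal is true under `σ`, on a variable of `S`, and all
other variables lie outside `S`. -/
def crit (k : ℕ) (S : Finset (Fin n)) (σ : Fin n → Bool) : Finset (Finset (Fin n × Bool)) :=
  (S ×ˢ (Sᶜ.powersetCard (k - 1))).image fun p =>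
    mkCl (insert p.1 p.2) fun v => if v = p.1 then σ v else !σ v

theorem card_crit (k : ℕ) (S : Finset (Fin n)) (σ : Fin n → Bool) :
    (crit k S σ).card = S.card * (n - S.card).choose (k - 1) := by
  unfold crit
  rw [card_image_of_injOn, card_product, card_powersetCard, card_compl, Fintype.card_fin]
  rintro ⟨v, T⟩ hp ⟨v', T'⟩ hp' h
  simp only [coe_product, Set.mem_prod, mem_coe, mem_powersetCard] at hp hp'
  have h1 := congrArg (fun c => Finset.image Prod.fst c) h
  simp only [image_fst_mkCl] at h1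
  have hv : v = v' := by
    have : v ∈ insert v' T' := by rw [← h1]; exact mem_insert_self _ _
    rcases mem_insert.1 this with e | e
    · exact e
    · exact absurd hp.1 (mem_compl.1 (hp'.2.1 e))
  subst hv
  have hT : v ∉ T := fun e => (mem_compl.1 (hp.2.1 e)) hp.1
  have hT' : v ∉ T' := fun e => (mem_compl.1 (hp'.2.1 e)) hp.1
  have : T = T' := by
    rw [← erase_insert hT, h1, erase_insert hT']
  rw [this]

theorem crit_subset {k : ℕ} (hk : 1 ≤ k) (S : Finset (Fin n)) (σ : Fin n → Bool) :
    crit k S σ ⊆ clauses k n := by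
  intro c hc
  obtain ⟨⟨v, T⟩, hp, rfl⟩ := mem_image.1 hc
  simp only [mem_product, mem_powersetCard] at hp
  apply mkCl_mem
  have hT : v ∉ T := fun e => (mem_compl.1 (hp.2.1 e)) hp.1
  rw [card_insert_of_notMem hT, hp.2.2]; omega

theorem mem_crit {k : ℕ} {S : Finset (Fin n)} {σ : Fin n → Bool} {c : Finset (Fin n × Bool)}
    (hc : c ∈ crit k S σ) : ∃ v ∈ S, (v, σ v) ∈ c ∧
      ∀ l ∈ c, l = (v, σ v) ∨ (l.1 ∉ S ∧ σ l.1 ≠ l.2) := by
  obtain ⟨⟨v, T⟩, hp, rfl⟩ := mem_image.1 hc
  simp only [mem_product, mem_powersetCard] at hp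
  refine ⟨v, hp.1, mem_mkCl.2 ⟨mem_insert_self _ _, by simp⟩, ?_⟩
  intro l hl
  rw [mem_mkCl] at hl
  by_cases e : l.1 = v
  · left
    apply Prod.ext e
    rw [hl.2]; simp [e]
  · right
    have : l.1 ∈ T := (mem_insert.1 hl.1).resolve_left e
    refine ⟨mem_compl.1 (hp.2.1 this), ?_⟩
    rw [hl.2]; simp [e]

theorem disjoint_viol_crit (k : ℕ) (S : Finset (Fin n)) (σ : Fin n → Bool) :
    Disjoint (viol k univ σ) (crit k S σ) := by
  rw [disjoint_left]
  intro c h1 h2
  obtain ⟨v, _, hv, _⟩ := mem_crit h2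
  exact (mem_viol h1 _ hv).2 rfl

end Pool.Agent.Work.MP_41c404_pr
end

-- merged part: Pool.Agent.Work.MP_41c404_pr.Cluster
section
/-! Clusters of solutions (components under steps of Hamming distance at most `i`). -/

namespace Pool.Agent.Work.MP_41c404_pr

open Finset
open scoped Classical

variable {n : ℕ}

def Adj (i : ℕ) (F : Finset (Finset (Fin n × Bool))) (a b : Fin n → Bool) : Prop :=
  Sat F a ∧ Sat F b ∧ hammingDist a b ≤ i

def Reach (i : ℕ) (F : Finset (Finset (Fin n × Bool))) : (Fin n → Bool) → (Fin n → Bool) → Prop :=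
  Relation.ReflTransGen (Adj i F)

noncomputable def unfrozen (i : ℕ) (F : Finset (Finset (Fin n × Bool))) (σ : Fin n → Bool) :
    Finset (Fin n) :=
  univ.filter fun v => ∃ τ, Reach i F σ τ ∧ τ v ≠ σ v

def Bad (i s : ℕ) (F : Finset (Finset (Fin n × Bool))) (σ : Fin n → Bool) : Prop :=
  Sat F σ ∧ s ≤ (unfrozen i F σ).card

variable {i : ℕ} {F : Finset (Finset (Fin n × Bool))}

theorem Reach.symm' {a b : Fin n → Bool} (h : Reach i F a b) : Reach i F b a := by
  induction h with
  | refl => exact Relation.ReflTransGen.refl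
  | tail _ hxy ih =>
    exact Relation.ReflTransGen.head
      ⟨hxy.2.1, hxy.1, by rw [hammingDist_comm]; exact hxy.2.2⟩ ih

theorem Reach.sat {a b : Fin n → Bool} (h : Reach i F a b) (ha : Sat F a) : Sat F b := by
  induction h with
  | refl => exact ha
  | tail _ h2 _ => exact h2.2.1

theorem lexGt_toLex {A' A : Fin n → Bool} (h : LexGt A' A) : toLex A < toLex A' := by
  obtain ⟨r, h1, h2, h3⟩ := h
  refine ⟨r, fun j hj => (h1 j hj).symm, ?_⟩
  show A r < A' r
  rw [h2, h3]; exact Bool.false_lt_true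

theorem exists_maximal {σ : Fin n → Bool} (h : Sat F σ) :
    ∃ μ, Reach i F σ μ ∧ IsMaximal i F μ := by
  obtain ⟨μ, hμ, hmax⟩ := exists_max_image (univ.filter fun τ => Reach i F σ τ)
    (fun τ : Fin n → Bool => toLex τ) ⟨σ, mem_filter.2 ⟨mem_univ _, Relation.ReflTransGen.refl⟩⟩
  have hr : Reach i F σ μ := (mem_filter.1 hμ).2
  refine ⟨μ, hr, hr.sat h, ?_⟩
  rintro ⟨A', h1, h2, h3⟩
  have hr' : Reach i F σ A' :=
    Relation.ReflTransGen.tail hr ⟨hr.sat h, h1, by rw [hammingDist_comm]; exact h3⟩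
  exact absurd (hmax A' (by simp [hr'])) (not_le.2 (lexGt_toLex h2))

theorem unfrozen_subset {σ μ : Fin n → Bool} (h : Reach i F σ μ) :
    unfrozen i F μ ⊆ unfrozen i F σ := by
  intro v hv
  simp only [unfrozen, mem_filter, mem_univ, true_and] at hv ⊢
  obtain ⟨τ, h1, h2⟩ := hv
  by_cases e : τ v = σ v
  · exact ⟨μ, h, by rw [← e]; exact h2.symm⟩
  · exact ⟨τ, Relation.ReflTransGen.trans h h1, e⟩

theorem eq_of_not_mem_unfrozen {σ τ : Fin n → Bool} (h : Reach i F σ τ) {v : Fin n}
    (hv : v ∉ unfrozen i F σ) : τ v = σ v := by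
  by_contra e
  exact hv (by simp only [unfrozen, mem_filter, mem_univ, true_and]; exact ⟨τ, h, e⟩)

/-- The set of variables where some member of `A` differs from `σ`. -/
noncomputable def diffSet (σ : Fin n → Bool) (A : Finset (Fin n → Bool)) : Finset (Fin n) :=
  univ.filter fun v => ∃ τ ∈ A, τ v ≠ σ v

theorem disjoint_crit_diffSet (k : ℕ) (σ : Fin n → Bool) (A : Finset (Fin n → Bool))
    (hA : ∀ τ ∈ A, Sat F τ) : Disjoint F (crit k (diffSet σ A) σ) := by
  rw [disjoint_left]
  intro c hc hcr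
  obtain ⟨v, hv, _, hl⟩ := mem_crit hcr
  simp only [diffSet, mem_filter, mem_univ, true_and] at hv
  obtain ⟨τ, hτ, hne⟩ := hv
  obtain ⟨l, hlc, e⟩ := hA τ hτ c hc
  rcases hl l hlc with rfl | ⟨h1, h2⟩
  · exact hne e
  · apply h1
    simp only [diffSet, mem_filter, mem_univ, true_and]
    exact ⟨τ, hτ, by rw [e]; exact h2.symm⟩

theorem exists_closed_of_bad (k : ℕ) {s : ℕ} (hs : 1 ≤ s) {σ : Fin n → Bool} (h : Bad i s F σ) :
    ∃ S : Finset (Fin n), s ≤ S.card ∧ S.card ≤ s + i ∧ Disjoint F (crit k S σ) := by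
  set C : Finset (Fin n → Bool) := univ.filter fun τ => Reach i F σ τ with hC
  obtain ⟨A, hA, hmax⟩ := exists_max_image
    (C.powerset.filter fun A => σ ∈ A ∧ (diffSet σ A).card < s) (fun A => A.card)
    ⟨{σ}, by
      simp only [mem_filter, mem_powerset, singleton_subset_iff, mem_singleton, true_and, hC,
        mem_univ]
      refine ⟨Relation.ReflTransGen.refl, ?_⟩
      have : diffSet σ {σ} = ∅ := by
        simp [diffSet]
      rw [this, card_empty]; exact hs⟩
  simp only [mem_filter, mem_powerset] at hA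
  obtain ⟨hAC, hσA, hAs⟩ := hA
  have hex : ∃ a ∈ A, ∃ b, b ∉ A ∧ Adj i F a b := by
    by_contra hno
    push Not at hno
    have hall : ∀ τ, Reach i F σ τ → τ ∈ A := by
      intro τ hτ
      induction hτ with
      | refl => exact hσA
      | tail _ h2 ih =>
        by_contra hb
        exact hno _ ih _ hb h2
    have : unfrozen i F σ ⊆ diffSet σ A := by
      intro v hv
      simp only [unfrozen, diffSet, mem_filter, mem_univ, true_and] at hv ⊢
      obtain ⟨τ, h1, h2⟩ := hv
      exact ⟨τ, hall τ h1, h2⟩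
    have := card_le_card this
    have := h.2
    omega
  obtain ⟨a, ha, b, hb, hab⟩ := hex
  have hra : Reach i F σ a := (mem_filter.1 (hAC ha)).2
  have hrb : Reach i F σ b := Relation.ReflTransGen.tail hra hab
  have hsub : insert b A ⊆ C := by
    intro x hx
    rcases mem_insert.1 hx with rfl | hx
    · simp [hC, hrb]
    · exact hAC hx
  refine ⟨diffSet σ (insert b A), ?_, ?_, ?_⟩
  · by_contra hlt
    push Not at hlt
    have := hmax (insert b A) (by
      simp only [mem_filter, mem_powerset]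
      exact ⟨hsub, mem_insert_of_mem hσA, hlt⟩)
    simp only [card_insert_of_notMem hb] at this
    omega
  · have hs2 : diffSet σ (insert b A) ⊆ diffSet σ A ∪ univ.filter fun v => a v ≠ b v := by
      intro v hv
      simp only [diffSet, mem_filter, mem_univ, true_and, mem_union, mem_insert] at hv ⊢
      obtain ⟨τ, rfl | hτ, hne⟩ := hv
      · by_cases e : a v = τ v
        · left; exact ⟨a, ha, by rw [e]; exact hne⟩
        · right; exact e
      · left; exact ⟨τ, hτ, hne⟩
    have h1 := card_le_card hs2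
    have h2 := card_union_le (diffSet σ A) (univ.filter fun v => a v ≠ b v)
    have h3 : (univ.filter fun v => a v ≠ b v).card ≤ i := by
      have := hab.2.2
      unfold hammingDist at this
      convert this
    omega
  · apply disjoint_crit_diffSet
    intro τ hτ
    exact Reach.sat (mem_filter.1 (hsub hτ)).2 h.1

theorem card_agree_le (μ : Fin n → Bool) (U : Finset (Fin n)) :
    (univ.filter fun τ : Fin n → Bool => ∀ v, v ∉ U → τ v = μ v).card ≤ 2 ^ U.card := by
  rw [← card_powerset]
  apply card_le_card_of_injOn (fun τ => U.filter fun v => τ v = true)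
  · intro τ _
    exact mem_coe.2 (mem_powerset.2 (filter_subset _ _))
  · intro τ hτ τ' hτ' e
    simp only [coe_filter, mem_univ, true_and, Set.mem_ofPred_eq] at hτ hτ'
    funext v
    by_cases hv : v ∈ U
    · have := congrArg (fun S => v ∈ S) e
      simp only [mem_filter, hv, true_and, eq_iff_iff] at this
      cases h1 : τ v <;> cases h2 : τ' v <;> simp_all
    · rw [hτ v hv, hτ' v hv]

theorem card_sat_le (i s : ℕ) (F : Finset (Finset (Fin n × Bool))) :
    (univ.filter fun σ => Sat F σ).card ≤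
      (univ.filter fun σ => Bad i s F σ).card + numMaximal i F * 2 ^ s := by
  set G : Finset (Fin n → Bool) :=
    univ.filter fun μ => IsMaximal i F μ ∧ (unfrozen i F μ).card ≤ s with hG
  have hsub : (univ.filter fun σ => Sat F σ) ⊆ (univ.filter fun σ => Bad i s F σ) ∪
      G.biUnion fun μ => univ.filter fun τ : Fin n → Bool =>
        ∀ v, v ∉ unfrozen i F μ → τ v = μ v := by
    intro σ hσ
    have hs : Sat F σ := (mem_filter.1 hσ).2
    by_cases hb : Bad i s F σ
    · exact mem_union_left _ (by simp [hb])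
    · apply mem_union_right
      obtain ⟨μ, hr, hm⟩ := exists_maximal (i := i) hs
      rw [mem_biUnion]
      refine ⟨μ, ?_, ?_⟩
      · simp only [hG, mem_filter, mem_univ, true_and]
        refine ⟨hm, ?_⟩
        have h1 := card_le_card (unfrozen_subset hr)
        have h2 : ¬ s ≤ (unfrozen i F σ).card := fun h => hb ⟨hs, h⟩
        omega
      · simp only [mem_filter, mem_univ, true_and]
        intro v hv
        exact eq_of_not_mem_unfrozen hr.symm' hv
  refine (card_le_card hsub).trans ((card_union_le _ _).trans ?_)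
  apply Nat.add_le_add_left
  refine (card_biUnion_le_card_mul _ _ (2 ^ s) ?_).trans ?_
  · intro μ hμ
    exact (card_agree_le μ _).trans (Nat.pow_le_pow_right (by norm_num) (mem_filter.1 hμ).2.2)
  · apply Nat.mul_le_mul_right
    unfold numMaximal
    apply card_le_card
    intro μ hμ
    simp only [hG, mem_filter, mem_univ, true_and] at hμ ⊢
    exact hμ.1

/-- If no solution of `F` is bad, few sets of extra clauses keep the formula satisfiable. -/
theorem card_survive_le {k : ℕ} (i s Δ : ℕ) (hF : F ⊆ clauses k n)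
    (hgood : ∀ σ, ¬ Bad i s F σ) :
    ((((clauses k n) \ F).powersetCard Δ).filter fun E => ∃ A, Sat (F ∪ E) A).card ≤
      numMaximal i F * ((clauses k n).card - F.card - (n - s).choose k).choose Δ := by
  set G : Finset (Fin n → Bool) := univ.filter fun μ => IsMaximal i F μ with hG
  have hsub : ((((clauses k n) \ F).powersetCard Δ).filter fun E => ∃ A, Sat (F ∪ E) A) ⊆
      G.biUnion fun μ => (((clauses k n) \ F).powersetCard Δ).filter fun E =>
        Disjoint E (viol k (unfrozen i F μ)ᶜ μ) := by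
    intro E hE
    rw [mem_filter] at hE
    obtain ⟨hE1, A, hA⟩ := hE
    have hAF : Sat F A := fun c hc => hA c (mem_union_left _ hc)
    obtain ⟨μ, hr, hm⟩ := exists_maximal (i := i) hAF
    rw [mem_biUnion]
    refine ⟨μ, by simp [hG, hm], mem_filter.2 ⟨hE1, ?_⟩⟩
    rw [disjoint_left]
    intro c hc hv
    obtain ⟨l, hl, e⟩ := hA c (mem_union_right _ hc)
    obtain ⟨h1, h2⟩ := mem_viol hv l hl
    apply h2
    rw [← e]
    exact (eq_of_not_mem_unfrozen hr.symm' (mem_compl.1 h1)).symm
  refine (card_le_card hsub).trans ((card_biUnion_le_card_mul _ _ _ ?_).trans (le_of_eq rfl))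
  intro μ hμ
  have hm : IsMaximal i F μ := (mem_filter.1 hμ).2
  have hsubv : viol k (unfrozen i F μ)ᶜ μ ⊆ clauses k n \ F := by
    intro c hc
    rw [mem_sdiff]
    refine ⟨viol_subset _ _ _ hc, fun hcF => ?_⟩
    obtain ⟨l, hl, e⟩ := hm.1 c hcF
    exact (mem_viol hc l hl).2 e
  rw [card_powersetCard_disjoint _ _ _ hsubv, card_sdiff_of_subset hF, card_viol, card_compl,
    Fintype.card_fin]
  apply Nat.choose_le_choose
  apply Nat.sub_le_sub_left
  apply Nat.choose_le_choose
  have : ¬ s ≤ (unfrozen i F μ).card := fun h => hgood μ ⟨hm.1, h⟩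
  omega

end Pool.Agent.Work.MP_41c404_pr
end

-- merged part: Pool.Agent.Work.MP_41c404_pr.Transport
section
/-! Adding isolated variables. -/

namespace Pool.Agent.Work.MP_41c404_pr

open Finset
open scoped Classical

variable {n ν : ℕ}

def supp (F : Finset (Finset (Fin n × Bool))) : Finset (Fin n) :=
  F.biUnion fun c => c.image Prod.fst

def mapCl (e : Fin ν ↪o Fin n) (c : Finset (Fin ν × Bool)) : Finset (Fin n × Bool) :=
  c.image fun l => (e l.1, l.2)

def mapF (e : Fin ν ↪o Fin n) (G : Finset (Finset (Fin ν × Bool))) :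
    Finset (Finset (Fin n × Bool)) :=
  G.image (mapCl e)

theorem lit_injective (e : Fin ν ↪o Fin n) :
    Function.Injective fun l : Fin ν × Bool => (e l.1, l.2) := by
  intro a b h
  simp only [Prod.mk.injEq, EmbeddingLike.apply_eq_iff_eq] at h
  exact Prod.ext h.1 h.2

theorem mapCl_injective (e : Fin ν ↪o Fin n) : Function.Injective (mapCl e) :=
  image_injective (lit_injective e)

theorem mapF_injective (e : Fin ν ↪o Fin n) : Function.Injective (mapF e) :=
  image_injective (mapCl_injective e)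

theorem image_fst_mapCl (e : Fin ν ↪o Fin n) (c : Finset (Fin ν × Bool)) :
    (mapCl e c).image Prod.fst = (c.image Prod.fst).image e := by
  unfold mapCl
  rw [image_image, image_image]; rfl

theorem mapCl_mem_iff {k : ℕ} (e : Fin ν ↪o Fin n) (c : Finset (Fin ν × Bool)) :
    mapCl e c ∈ clauses k n ↔ c ∈ clauses k ν := by
  rw [mem_clauses, mem_clauses, image_fst_mapCl, card_image_of_injective _ e.injective]
  unfold mapCl
  rw [card_image_of_injective _ (lit_injective e)]

theorem sat_mapF (e : Fin ν ↪o Fin n) (G : Finset (Finset (Fin ν × Bool))) (A : Fin n → Bool) :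
    Sat (mapF e G) A ↔ Sat G (A ∘ e) := by
  unfold Sat mapF mapCl
  simp only [mem_image, forall_exists_index, and_imp, forall_apply_eq_imp_iff₂,
    exists_exists_and_eq_and, Function.comp]

theorem supp_mapF (e : Fin ν ↪o Fin n) (G : Finset (Finset (Fin ν × Bool))) :
    supp (mapF e G) = (supp G).image e := by
  unfold supp mapF
  rw [image_biUnion, biUnion_image]
  simp only [image_fst_mapCl]

theorem hammingDist_comp_le (e : Fin ν ↪o Fin n) (A B : Fin n → Bool) :
    hammingDist (A ∘ e) (B ∘ e) ≤ hammingDist A B := by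
  unfold hammingDist
  apply card_le_card_of_injOn e
  · intro v hv
    simpa using hv
  · exact e.injective.injOn

/-- Extension by `true` off the range of `e`. -/
noncomputable def ext (e : Fin ν ↪o Fin n) (B : Fin ν → Bool) : Fin n → Bool :=
  Function.extend e B fun _ => true

theorem ext_apply (e : Fin ν ↪o Fin n) (B : Fin ν → Bool) (v : Fin ν) : ext e B (e v) = B v :=
  e.injective.extend_apply _ _ _

theorem ext_comp (e : Fin ν ↪o Fin n) (B : Fin ν → Bool) : ext e B ∘ e = B :=
  funext (ext_apply e B)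

theorem ext_off (e : Fin ν ↪o Fin n) (B : Fin ν → Bool) {w : Fin n} (hw : ¬ ∃ v, e v = w) :
    ext e B w = true := Function.extend_apply' _ _ _ hw

theorem hammingDist_ext_le (e : Fin ν ↪o Fin n) (A B : Fin ν → Bool) :
    hammingDist (ext e A) (ext e B) ≤ hammingDist A B := by
  unfold hammingDist
  refine le_trans (card_le_card (t := (univ.filter fun v => A v ≠ B v).image e) ?_) ?_
  · intro w hw
    simp only [mem_filter, mem_univ, true_and] at hw
    by_cases h : ∃ v, e v = w
    · obtain ⟨v, rfl⟩ := h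
      rw [ext_apply, ext_apply] at hw
      exact mem_image_of_mem _ (by simpa using hw)
    · rw [ext_off e A h, ext_off e B h] at hw
      exact absurd rfl hw
  · convert card_image_le

theorem isMaximal_ext (i : ℕ) (e : Fin ν ↪o Fin n) (G : Finset (Finset (Fin ν × Bool)))
    (B : Fin ν → Bool) : IsMaximal i (mapF e G) (ext e B) ↔ IsMaximal i G B := by
  unfold IsMaximal
  rw [sat_mapF, ext_comp]
  apply and_congr_right
  intro _
  apply not_congr
  constructor
  · rintro ⟨A', h1, ⟨r, h2, h3, h4⟩, h5⟩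
    have hr : ∃ v, e v = r := by
      by_contra h
      rw [ext_off e B h] at h4
      exact absurd h4 (by simp)
    obtain ⟨v, rfl⟩ := hr
    refine ⟨A' ∘ e, (sat_mapF e G A').1 h1, ⟨v, ?_, h3, by rwa [ext_apply] at h4⟩, ?_⟩
    · intro j hj
      have := h2 (e j) (e.strictMono hj)
      rwa [ext_apply] at this
    · have := hammingDist_comp_le e A' (ext e B)
      rw [ext_comp] at this
      exact this.trans h5
  · rintro ⟨B', h1, ⟨r, h2, h3, h4⟩, h5⟩
    refine ⟨ext e B', (sat_mapF e G _).2 (by rwa [ext_comp]),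
      ⟨e r, ?_, by rwa [ext_apply], by rwa [ext_apply]⟩, (hammingDist_ext_le e B' B).trans h5⟩
    intro w hw
    by_cases h : ∃ v, e v = w
    · obtain ⟨v, rfl⟩ := h
      rw [ext_apply, ext_apply]
      exact h2 v (e.lt_iff_lt.1 hw)
    · rw [ext_off e _ h, ext_off e _ h]

theorem eq_ext_of_isMaximal {i : ℕ} (hi : 1 ≤ i) (e : Fin ν ↪o Fin n)
    (G : Finset (Finset (Fin ν × Bool))) (A : Fin n → Bool) (h : IsMaximal i (mapF e G) A) :
    A = ext e (A ∘ e) := by
  funext w
  by_cases hw : ∃ v, e v = w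
  · obtain ⟨v, rfl⟩ := hw
    rw [ext_apply]; rfl
  · rw [ext_off e _ hw]
    by_contra hA
    apply h.2
    have hcomp : Function.update A w true ∘ e = A ∘ e := by
      funext v
      have : e v ≠ w := fun e' => hw ⟨v, e'⟩
      simp [Function.update_of_ne this]
    refine ⟨Function.update A w true, ?_, ⟨w, ?_, by simp, by simpa using hA⟩, ?_⟩
    · rw [sat_mapF, hcomp, ← sat_mapF]; exact h.1
    · intro j hj
      exact Function.update_of_ne hj.ne _ _
    · refine le_trans ?_ hi
      unfold hammingDist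
      refine le_trans (card_le_card (t := {w}) ?_) (by simp)
      intro j hj
      simp only [mem_filter, mem_univ, true_and] at hj
      rw [mem_singleton]
      by_contra hne
      exact hj (Function.update_of_ne hne _ _)

theorem numMaximal_mapF {i : ℕ} (hi : 1 ≤ i) (e : Fin ν ↪o Fin n)
    (G : Finset (Finset (Fin ν × Bool))) : numMaximal i (mapF e G) = numMaximal i G := by
  unfold numMaximal
  symm
  apply card_bij (fun B _ => ext e B)
  · intro B hB
    simp only [mem_filter, mem_univ, true_and] at hB ⊢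
    exact (isMaximal_ext i e G B).2 hB
  · intro B _ B' _ h
    rw [← ext_comp e B, h, ext_comp]
  · intro A hA
    simp only [mem_filter, mem_univ, true_and] at hA
    have := eq_ext_of_isMaximal hi e G A hA
    refine ⟨A ∘ e, ?_, this.symm⟩
    simp only [mem_filter, mem_univ, true_and]
    rw [← isMaximal_ext i e G, ← this]; exact hA

theorem exists_mapCl (e : Fin ν ↪o Fin n) (c : Finset (Fin n × Bool))
    (h : ∀ l ∈ c, ∃ v, e v = l.1) : ∃ c', mapCl e c' = c := by
  refine ⟨univ.filter fun l : Fin ν × Bool => (e l.1, l.2) ∈ c, ?_⟩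
  unfold mapCl
  ext l
  simp only [mem_image, mem_filter, mem_univ, true_and]
  constructor
  · rintro ⟨l', h1, rfl⟩; exact h1
  · intro hl
    obtain ⟨v, hv⟩ := h l hl
    exact ⟨(v, l.2), by simpa [hv] using hl, by simp [hv]⟩

theorem exists_mapF (e : Fin ν ↪o Fin n) (F : Finset (Finset (Fin n × Bool)))
    (h : ∀ w ∈ supp F, ∃ v, e v = w) : ∃ G, mapF e G = F := by
  refine ⟨univ.filter fun c => mapCl e c ∈ F, ?_⟩
  unfold mapF
  ext c
  simp only [mem_image, mem_filter, mem_univ, true_and]
  constructor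
  · rintro ⟨c', h1, rfl⟩; exact h1
  · intro hc
    obtain ⟨c', hc'⟩ := exists_mapCl e c (fun l hl =>
      h _ (mem_biUnion.2 ⟨c, hc, mem_image_of_mem _ hl⟩))
    exact ⟨c', by rwa [hc'], hc'⟩

theorem mapF_mem_iff {k M : ℕ} (e : Fin ν ↪o Fin n) (G : Finset (Finset (Fin ν × Bool))) :
    mapF e G ∈ formulas k n M ↔ G ∈ formulas k ν M := by
  rw [mem_formulas, mem_formulas]
  unfold mapF
  rw [card_image_of_injective _ (mapCl_injective e), image_subset_iff]
  simp only [mapCl_mem_iff]
  rfl

/-- Sum of an invariant weight over formulas with a support of given size. -/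
theorem sum_supp_card (k M : ℕ) (w : ∀ n : ℕ, Finset (Finset (Fin n × Bool)) → ℝ)
    (hw : ∀ (n ν : ℕ) (e : Fin ν ↪o Fin n) (G : Finset (Finset (Fin ν × Bool))),
      w n (mapF e G) = w ν G) (n ν : ℕ) :
    ∑ F ∈ (formulas k n M).filter (fun F => (supp F).card = ν), w n F =
      (n.choose ν : ℝ) * ∑ G ∈ (formulas k ν M).filter (fun G => supp G = univ), w ν G := by
  rw [← sum_fiberwise_of_maps_to (s := (formulas k n M).filter (fun F => (supp F).card = ν))
    (t := (univ : Finset (Fin n)).powersetCard ν) (g := supp) (by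
      intro F hF
      exact mem_powersetCard.2 ⟨subset_univ _, (mem_filter.1 hF).2⟩)]
  have : ∀ S ∈ (univ : Finset (Fin n)).powersetCard ν,
      ∑ F ∈ ((formulas k n M).filter (fun F => (supp F).card = ν)).filter (fun F => supp F = S),
        w n F = ∑ G ∈ (formulas k ν M).filter (fun G => supp G = univ), w ν G := by
    intro S hS
    have hc : S.card = ν := (mem_powersetCard.1 hS).2
    set e := S.orderEmbOfFin hc with he
    have hrange : (univ : Finset (Fin ν)).image e = S := by
      apply coe_injective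
      rw [coe_image, coe_univ, Set.image_univ, he, range_orderEmbOfFin]
    symm
    apply sum_bij (fun G _ => mapF e G)
    · intro G hG
      rw [mem_filter] at hG
      have : supp (mapF e G) = S := by rw [supp_mapF, hG.2, hrange]
      simp only [mem_filter, mapF_mem_iff, this, hc, and_true]
      exact hG.1
    · intro G _ G' _ h
      exact mapF_injective e h
    · intro F hF
      simp only [mem_filter] at hF
      obtain ⟨G, rfl⟩ := exists_mapF e F (by
        intro w hw
        rw [hF.2, ← hrange] at hw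
        simpa using hw)
      refine ⟨G, ?_, rfl⟩
      rw [mem_filter, ← mapF_mem_iff e]
      refine ⟨hF.1.1, ?_⟩
      apply image_injective e.injective
      rw [← supp_mapF, hF.2, hrange]
    · intro G _
      exact (hw _ _ e G).symm
  rw [sum_congr rfl this]
  simp

theorem card_supp_le (F : Finset (Finset (Fin n × Bool))) : (supp F).card ≤ n := by
  simpa using card_le_univ (supp F)

/-- Sum of an invariant weight over formulas whose support size satisfies `P`. -/
theorem sum_supp_pred (k M : ℕ) (w : ∀ n : ℕ, Finset (Finset (Fin n × Bool)) → ℝ)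
    (hw : ∀ (n ν : ℕ) (e : Fin ν ↪o Fin n) (G : Finset (Finset (Fin ν × Bool))),
      w n (mapF e G) = w ν G) (P : ℕ → Prop) [DecidablePred P] (n L : ℕ) (hL : n ≤ L) :
    ∑ F ∈ (formulas k n M).filter (fun F => P (supp F).card), w n F =
      ∑ ν ∈ (range (L + 1)).filter P, (n.choose ν : ℝ) *
        ∑ G ∈ (formulas k ν M).filter (fun G => supp G = univ), w ν G := by
  rw [← sum_fiberwise_of_maps_to (s := (formulas k n M).filter (fun F => P (supp F).card))
    (t := (range (L + 1)).filter P) (g := fun F => (supp F).card) (by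
      intro F hF
      rw [mem_filter] at hF ⊢
      have := card_supp_le F
      exact ⟨mem_range.2 (by omega), hF.2⟩)]
  apply sum_congr rfl
  intro ν hν
  rw [← sum_supp_card k M w hw n ν]
  apply sum_congr _ (fun _ _ => rfl)
  ext F
  simp only [mem_filter]
  constructor
  · rintro ⟨⟨h1, _⟩, h2⟩; exact ⟨h1, h2⟩
  · rintro ⟨h1, h2⟩; exact ⟨⟨h1, by rw [h2]; exact (mem_filter.1 hν).2⟩, h2⟩

end Pool.Agent.Work.MP_41c404_pr
end

-- merged part: Pool.Agent.Work.MP_41c404_pr.Finite
section
/-! Finite (non-asymptotic) inequalities. -/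

namespace Pool.Agent.Work.MP_41c404_pr

open Finset
open scoped Classical

/-- Number of `k`-clauses. -/
def NN (k n : ℕ) : ℕ := 2 ^ k * n.choose k

/-- Number of formulas. -/
def TT (k n M : ℕ) : ℕ := (NN k n).choose M

theorem card_formulas' (k n M : ℕ) : (formulas k n M).card = TT k n M := card_formulas k n M

theorem card_clauses' (k n : ℕ) : (clauses k n).card = NN k n := card_clauses k n

/-- Total number of (formula, bad solution) pairs. -/
noncomputable def badSum (k i s n M : ℕ) : ℕ :=
  ∑ F ∈ formulas k n M, (univ.filter fun σ => Bad i s F σ).card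

/-- Total number of (formula, solution) pairs. -/
noncomputable def satSum (k n M : ℕ) : ℕ :=
  ∑ F ∈ formulas k n M, (univ.filter fun σ => Sat F σ).card

theorem sum_card_filter_comm {α β : Type*} (A : Finset α) (B : Finset β) (P : α → β → Prop) :
    ∑ a ∈ A, (B.filter fun b => P a b).card = ∑ b ∈ B, (A.filter fun a => P a b).card := by
  simp only [card_filter]
  exact sum_comm

theorem satSum_eq (k n M : ℕ) : satSum k n M = 2 ^ n * (NN k n - n.choose k).choose M := by
  unfold satSum
  rw [sum_card_filter_comm]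
  have : ∀ σ ∈ (univ : Finset (Fin n → Bool)),
      ((formulas k n M).filter fun F => Sat F σ).card = (NN k n - n.choose k).choose M := by
    intro σ _
    have h := card_powersetCard_disjoint (clauses k n) (viol k univ σ) M (viol_subset _ _ _)
    rw [card_viol, card_univ, Fintype.card_fin, card_clauses'] at h
    rw [← h]
    congr 1
    apply filter_congr
    intro F hF
    exact sat_iff_disjoint (mem_formulas.1 hF).1 σ
  rw [sum_congr rfl this]
  simp

theorem badSum_le_nat {k : ℕ} (hk : 1 ≤ k) (i s n M : ℕ) (hs : 1 ≤ s) :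
    badSum k i s n M ≤ 2 ^ n * (((univ : Finset (Finset (Fin n))).filter
      fun S => S.card ≤ s + i).card *
      (NN k n - (n.choose k + s * (n - (s + i)).choose (k - 1))).choose M) := by
  unfold badSum
  rw [sum_card_filter_comm]
  have : ∀ σ ∈ (univ : Finset (Fin n → Bool)),
      ((formulas k n M).filter fun F => Bad i s F σ).card ≤
        (((univ : Finset (Finset (Fin n))).filter fun S => S.card ≤ s + i).card *
      (NN k n - (n.choose k + s * (n - (s + i)).choose (k - 1))).choose M) := by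
    intro σ _
    have hsub : ((formulas k n M).filter fun F => Bad i s F σ) ⊆
        ((univ : Finset (Finset (Fin n))).filter fun S => s ≤ S.card ∧ S.card ≤ s + i).biUnion
          fun S => (formulas k n M).filter fun F => Disjoint F (viol k univ σ ∪ crit k S σ) := by
      intro F hF
      rw [mem_filter] at hF
      obtain ⟨S, h1, h2, h3⟩ := exists_closed_of_bad k hs hF.2
      rw [mem_biUnion]
      refine ⟨S, by simp [h1, h2], mem_filter.2 ⟨hF.1, ?_⟩⟩
      rw [disjoint_union_right]
      exact ⟨(sat_iff_disjoint (mem_formulas.1 hF.1).1 σ).1 hF.2.1, h3⟩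
    refine (card_le_card hsub).trans ((card_biUnion_le_card_mul _ _
      ((NN k n - (n.choose k + s * (n - (s + i)).choose (k - 1))).choose M) ?_).trans ?_)
    · intro S hS
      simp only [mem_filter, mem_univ, true_and] at hS
      have h := card_powersetCard_disjoint (clauses k n) (viol k univ σ ∪ crit k S σ) M
        (union_subset (viol_subset _ _ _) (crit_subset hk _ _))
      rw [card_union_of_disjoint (disjoint_viol_crit _ _ _), card_viol, card_univ,
        Fintype.card_fin, card_clauses', card_crit] at h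
      unfold formulas
      rw [h]
      apply Nat.choose_le_choose
      apply Nat.sub_le_sub_left
      apply Nat.add_le_add_left
      exact Nat.mul_le_mul hS.1 (Nat.choose_le_choose _ (by omega))
    · apply Nat.mul_le_mul_right
      apply card_le_card
      intro S hS
      simp only [mem_filter, mem_univ, true_and] at hS ⊢
      exact hS.2
  refine (sum_le_sum this).trans (le_of_eq ?_)
  simp

theorem badSum_le {k : ℕ} (hk : 1 ≤ k) (i s n M : ℕ) (hs : 1 ≤ s) (t : ℝ) (ht : 0 < t)
    (ht1 : t ≤ 1) :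
    (badSum k i s n M : ℝ) ≤ 2 ^ n * ((1 + t) ^ n / t ^ (s + i)) * (TT k n M : ℝ) *
      Real.exp (-(((n.choose k + s * (n - (s + i)).choose (k - 1) : ℕ) : ℝ) / NN k n * M)) := by
  have h1 := badSum_le_nat hk i s n M hs
  have h2 := card_small_subsets n (s + i) t ht ht1
  have h3 := choose_sub_le_exp (NN k n) (n.choose k + s * (n - (s + i)).choose (k - 1)) M
  have h2' : (((univ : Finset (Finset (Fin n))).filter fun S => S.card ≤ s + i).card : ℝ) ≤
      (1 + t) ^ n / t ^ (s + i) := by
    rw [le_div_iff₀ (by positivity)]; exact h2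
  calc (badSum k i s n M : ℝ) ≤ 2 ^ n * ((((univ : Finset (Finset (Fin n))).filter
        fun S => S.card ≤ s + i).card : ℝ) *
      ((NN k n - (n.choose k + s * (n - (s + i)).choose (k - 1))).choose M : ℝ)) := by
        exact_mod_cast h1
    _ ≤ 2 ^ n * (((1 + t) ^ n / t ^ (s + i)) * ((TT k n M : ℝ) *
      Real.exp (-(((n.choose k + s * (n - (s + i)).choose (k - 1) : ℕ) : ℝ) / NN k n * M)))) := by
        gcongr
        exact h3
    _ = _ := by ring

theorem satSum_le (k i s n M : ℕ) :
    satSum k n M ≤ badSum k i s n M + (∑ F ∈ formulas k n M, numMaximal i F) * 2 ^ s := by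
  unfold satSum badSum
  rw [sum_mul, ← sum_add_distrib]
  exact sum_le_sum fun F _ => card_sat_le i s F

theorem numMaximal_le_sat {n : ℕ} (i : ℕ) (F : Finset (Finset (Fin n × Bool))) :
    numMaximal i F ≤ (univ.filter fun σ => Sat F σ).card := by
  unfold numMaximal
  apply card_le_card
  intro σ hσ
  simp only [mem_filter, mem_univ, true_and] at hσ ⊢
  exact hσ.1

theorem card_sat_mul_le (k n M Δ : ℕ) :
    ((formulas k n (M + Δ)).filter fun F => ∃ A, Sat F A).card * (M + Δ).choose M ≤
      ∑ F ∈ formulas k n M,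
        ((((clauses k n) \ F).powersetCard Δ).filter fun E => ∃ A, Sat (F ∪ E) A).card := by
  have e1 : ((formulas k n (M + Δ)).filter fun F => ∃ A, Sat F A).card * (M + Δ).choose M =
      (((formulas k n (M + Δ)).filter fun F => ∃ A, Sat F A).sigma
        fun F => F.powersetCard M).card := by
    rw [card_sigma]
    rw [sum_congr rfl (g := fun _ => (M + Δ).choose M)]
    · simp
    · intro F hF
      rw [card_powersetCard, (mem_formulas.1 (mem_filter.1 hF).1).2]
  rw [e1, ← card_sigma]
  apply card_le_card_of_injOn (fun p => ⟨p.2, p.1 \ p.2⟩)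
  · rintro ⟨F, G⟩ hp
    simp only [coe_sigma, Set.mem_sigma_iff, mem_coe, mem_filter, mem_powersetCard,
      mem_formulas] at hp ⊢
    obtain ⟨⟨⟨h1, h2⟩, h3⟩, h4, h5⟩ := hp
    refine ⟨⟨h4.trans h1, h5⟩, ⟨sdiff_subset_sdiff h1 subset_rfl, ?_⟩, ?_⟩
    · rw [card_sdiff_of_subset h4, h2, h5]; omega
    · rwa [union_sdiff_of_subset h4]
  · rintro ⟨F, G⟩ hp ⟨F', G'⟩ hp' h
    simp only [coe_sigma, Set.mem_sigma_iff, mem_coe, mem_filter, mem_powersetCard] at hp hp'
    simp only [Sigma.mk.injEq, heq_eq_eq] at h ⊢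
    obtain ⟨rfl, h⟩ := h
    refine ⟨?_, rfl⟩
    rw [← union_sdiff_of_subset hp.2.1, h, union_sdiff_of_subset hp'.2.1]

/-- Step A: a formula that stays satisfiable after `Δ` more clauses has many clusters. -/
theorem satProb_le (k i s n M Δ : ℕ) (P : ℕ → Prop) (hM : M < NN k n)
    (hpos : 0 < satProb k n (M + Δ)) :
    satProb k n (M + Δ) * TT k n M ≤ badSum k i s n M +
      (((formulas k n M).filter fun F => ¬ P (supp F).card).card : ℝ) +
      Real.exp (-((((n - s).choose k : ℕ) : ℝ) / NN k n * Δ)) *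
        ∑ F ∈ (formulas k n M).filter (fun F => P (supp F).card), (numMaximal i F : ℝ) := by
  set x := Real.exp (-((((n - s).choose k : ℕ) : ℝ) / NN k n * Δ)) with hx
  set D : ℕ := (NN k n - M).choose Δ with hD
  have hT : 0 < TT k n (M + Δ) := by
    by_contra h
    have : TT k n (M + Δ) = 0 := by omega
    unfold satProb at hpos
    rw [card_formulas', this] at hpos
    simp at hpos
  have hle : M + Δ ≤ NN k n := by
    by_contra h
    unfold TT at hT
    rw [Nat.choose_eq_zero_of_lt (by omega)] at hT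
    exact absurd hT (lt_irrefl _)
  have hmul : TT k n (M + Δ) * (M + Δ).choose M = TT k n M * D := by
    have := Nat.choose_mul (n := NN k n) (k := M + Δ) (s := M) (by omega)
    rw [Nat.add_sub_cancel_left] at this
    exact this
  have hDpos : 0 < D := Nat.choose_pos (by omega)
  have hloc : ∀ F ∈ formulas k n M,
      (((((clauses k n) \ F).powersetCard Δ).filter fun E => ∃ A, Sat (F ∪ E) A).card : ℝ) ≤
        (D : ℝ) * (((univ.filter fun σ => Bad i s F σ).card : ℝ) +
          (if ¬ P (supp F).card then 1 else 0) +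
          x * (if P (supp F).card then (numMaximal i F : ℝ) else 0)) := by
    intro F hF
    obtain ⟨hF1, hF2⟩ := mem_formulas.1 hF
    have htriv : (((((clauses k n) \ F).powersetCard Δ).filter
        fun E => ∃ A, Sat (F ∪ E) A).card : ℝ) ≤ D := by
      have := card_filter_le (((clauses k n) \ F).powersetCard Δ) (fun E => ∃ A, Sat (F ∪ E) A)
      rw [card_powersetCard, card_sdiff_of_subset hF1, card_clauses', hF2] at this
      exact_mod_cast this
    have hx0 : 0 ≤ x := (Real.exp_pos _).le
    by_cases hb : ∃ σ, Bad i s F σ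
    · have h1 : (1 : ℝ) ≤ ((univ.filter fun σ => Bad i s F σ).card : ℝ) := by
        obtain ⟨σ, hσ⟩ := hb
        exact_mod_cast card_pos.2 ⟨σ, by simp [hσ]⟩
      refine htriv.trans (le_mul_of_one_le_right (by positivity) ?_)
      have : (0 : ℝ) ≤ (if ¬ P (supp F).card then 1 else 0) := by positivity
      have : (0 : ℝ) ≤ x * (if P (supp F).card then (numMaximal i F : ℝ) else 0) := by positivity
      linarith
    · by_cases hP : P (supp F).card
      · push Not at hb
        have h1 := card_survive_le i s Δ hF1 hb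
        rw [card_clauses', hF2] at h1
        have h2 := choose_sub_le_exp (NN k n - M) ((n - s).choose k) Δ
        have h3 : Real.exp (-((((n - s).choose k : ℕ) : ℝ) / (NN k n - M : ℕ) * Δ)) ≤ x := by
          rw [hx, Real.exp_le_exp, neg_le_neg_iff]
          have : (0 : ℝ) < (NN k n - M : ℕ) := by exact_mod_cast (by omega : 0 < NN k n - M)
          have : ((NN k n - M : ℕ) : ℝ) ≤ NN k n := by exact_mod_cast Nat.sub_le _ _
          gcongr
        simp only [hP, not_true_eq_false, if_false, if_true, add_zero]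
        calc _ ≤ (numMaximal i F : ℝ) * ((NN k n - M - (n - s).choose k).choose Δ : ℝ) := by
              exact_mod_cast h1
          _ ≤ (numMaximal i F : ℝ) * ((D : ℝ) * x) := by
              gcongr
              exact h2.trans (by gcongr)
          _ = (D : ℝ) * (0 + x * (numMaximal i F : ℝ)) := by ring
          _ ≤ _ := by gcongr; positivity
      · refine htriv.trans (le_mul_of_one_le_right (by positivity) ?_)
        simp only [hP, not_false_eq_true, if_true, if_false, mul_zero, add_zero]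
        have : (0 : ℝ) ≤ ((univ.filter fun σ => Bad i s F σ).card : ℝ) := by positivity
        linarith only []
  have hsum := sum_le_sum hloc
  rw [← mul_sum, sum_add_distrib, sum_add_distrib, ← mul_sum, ← sum_filter, ← sum_filter] at hsum
  have h0 : ((((formulas k n (M + Δ)).filter fun F => ∃ A, Sat F A).card : ℝ)) *
      ((M + Δ).choose M : ℝ) ≤ ∑ F ∈ formulas k n M,
      (((((clauses k n) \ F).powersetCard Δ).filter fun E => ∃ A, Sat (F ∪ E) A).card : ℝ) := by
    exact_mod_cast card_sat_mul_le k n M Δ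
  have hTr : (0 : ℝ) < TT k n (M + Δ) := by exact_mod_cast hT
  have hDr : (0 : ℝ) < D := by exact_mod_cast hDpos
  have hmulr : (TT k n (M + Δ) : ℝ) * ((M + Δ).choose M : ℝ) = TT k n M * D := by
    exact_mod_cast hmul
  have e : (D : ℝ) * (satProb k n (M + Δ) * TT k n M) =
      ((((formulas k n (M + Δ)).filter fun F => ∃ A, Sat F A).card : ℝ)) *
      ((M + Δ).choose M : ℝ) := by
    unfold satProb
    rw [card_formulas']
    field_simp
    rw [mul_assoc, mul_comm (D : ℝ), mul_assoc, mul_comm (TT k n M : ℝ), mul_comm (D : ℝ), ← hmulr]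
    ring
  apply le_of_mul_le_mul_left _ hDr
  rw [e]
  refine h0.trans (hsum.trans (le_of_eq ?_))
  unfold badSum
  simp

/-- Typical support sizes, defined through the likelihood ratio of two models. -/
def Typ (k n m M ν : ℕ) : Prop :=
  ((n + 2 * m).choose ν : ℝ) * TT k (n + m) M < 10 * ((n + m).choose ν : ℝ) * TT k (n + 2 * m) M

theorem card_atyp_le (k n m M : ℕ) (hT : 0 < TT k (n + 2 * m) M) :
    (((formulas k (n + m) M).filter fun F => ¬ Typ k n m M (supp F).card).card : ℝ) ≤
      (TT k (n + m) M : ℝ) / 10 := by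
  have h1 := sum_supp_pred k M (fun _ _ => 1) (fun _ _ _ _ => rfl) (fun ν => ¬ Typ k n m M ν)
    (n + m) (n + 2 * m) (by omega)
  have h2 := sum_supp_pred k M (fun _ _ => 1) (fun _ _ _ _ => rfl) (fun _ => True)
    (n + 2 * m) (n + 2 * m) le_rfl
  simp only [filter_true, sum_const, nsmul_eq_mul, mul_one, card_formulas'] at h1 h2
  have hTr : (0 : ℝ) < TT k (n + 2 * m) M := by exact_mod_cast hT
  rw [h1]
  calc _ ≤ ∑ ν ∈ (range (n + 2 * m + 1)).filter (fun ν => ¬ Typ k n m M ν),
        ((TT k (n + m) M : ℝ) / (10 * TT k (n + 2 * m) M)) * (((n + 2 * m).choose ν : ℝ) *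
          (((formulas k ν M).filter (fun G => supp G = univ)).card : ℝ)) := by
        apply sum_le_sum
        intro ν hν
        have := (mem_filter.1 hν).2
        unfold Typ at this
        push Not at this
        rw [← mul_assoc]
        gcongr
        rw [div_mul_eq_mul_div, le_div_iff₀ (by positivity)]
        linarith only [this]
    _ ≤ ∑ ν ∈ range (n + 2 * m + 1),
        ((TT k (n + m) M : ℝ) / (10 * TT k (n + 2 * m) M)) * (((n + 2 * m).choose ν : ℝ) *
          (((formulas k ν M).filter (fun G => supp G = univ)).card : ℝ)) :=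
        sum_le_sum_of_subset_of_nonneg (filter_subset _ _) (fun _ _ _ => by positivity)
    _ = _ := by
        rw [← mul_sum, ← h2]
        field_simp

theorem tilt_alg (C0 C1 C2 T0 T1 T2 B : ℝ) (p0 : 0 ≤ C0) (p2 : 0 ≤ C2) (q0 : 0 ≤ T0)
    (q1 : 0 ≤ T1) (q2 : 0 ≤ T2) (hB0 : 0 ≤ B) (ht : C2 * T1 < 10 * C1 * T2)
    (hb : C1 ^ 2 ≤ B * (C0 * C2)) (hlc : T0 * T2 ≤ T1 ^ 2) : T0 * C1 ≤ 10 * B * T1 * C0 := by
  have hpos : 0 < C1 * T2 := by linarith only [ht, p2, q1, mul_nonneg p2 q1]
  apply le_of_mul_le_mul_right _ hpos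
  calc T0 * C1 * (C1 * T2) = C1 ^ 2 * (T0 * T2) := by ring
    _ ≤ (B * (C0 * C2)) * T1 ^ 2 := by gcongr
    _ = (B * C0 * T1) * (C2 * T1) := by ring
    _ ≤ (B * C0 * T1) * (10 * C1 * T2) := by gcongr
    _ = _ := by ring

theorem sum_typ_le (k n m M : ℕ) {i : ℕ} (hi : 1 ≤ i) (B : ℝ) (hB0 : 0 ≤ B)
    (hB : ∀ ν, Typ k n m M ν →
      ((n + m).choose ν : ℝ) ^ 2 ≤ B * ((n.choose ν : ℝ) * ((n + 2 * m).choose ν : ℝ))) :
    (TT k n M : ℝ) * ∑ F ∈ (formulas k (n + m) M).filter (fun F => Typ k n m M (supp F).card),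
        (numMaximal i F : ℝ) ≤
      10 * B * TT k (n + m) M * ∑ F ∈ formulas k n M, (numMaximal i F : ℝ) := by
  have hw : ∀ (n ν : ℕ) (e : Fin ν ↪o Fin n) (G : Finset (Finset (Fin ν × Bool))),
      (numMaximal i (mapF e G) : ℝ) = numMaximal i G := fun n ν e G => by
    rw [numMaximal_mapF hi]
  have h1 := sum_supp_pred k M (fun _ F => (numMaximal i F : ℝ)) hw (fun ν => Typ k n m M ν)
    (n + m) (n + m) le_rfl
  have h2 := sum_supp_pred k M (fun _ F => (numMaximal i F : ℝ)) hw (fun _ => True)
    n (n + m) (by omega)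
  simp only [filter_true] at h2
  rw [h1, h2, mul_sum, mul_sum]
  refine le_trans (sum_le_sum ?_)
    (sum_le_sum_of_subset_of_nonneg (filter_subset (fun ν => Typ k n m M ν) _)
      (fun _ _ _ => mul_nonneg (mul_nonneg (mul_nonneg (by norm_num) hB0) (Nat.cast_nonneg _))
        (mul_nonneg (Nat.cast_nonneg _) (sum_nonneg fun _ _ => Nat.cast_nonneg _))))
  intro ν hν
  have ht := (mem_filter.1 hν).2
  have hb := hB ν ht
  unfold Typ at ht
  have hlc : (TT k n M : ℝ) * TT k (n + 2 * m) M ≤ (TT k (n + m) M : ℝ) ^ 2 := by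
    exact_mod_cast total_logConcave (2 ^ k) k n m M
  rw [← mul_assoc, ← mul_assoc]
  apply mul_le_mul_of_nonneg_right _ (sum_nonneg fun _ _ => Nat.cast_nonneg _)
  exact tilt_alg _ _ _ _ _ _ _ (Nat.cast_nonneg _) (Nat.cast_nonneg _) (Nat.cast_nonneg _)
    (Nat.cast_nonneg _) (Nat.cast_nonneg _) hB0 ht hb hlc

theorem typ_second_diff (k n m M ν : ℕ) (A : ℝ) (hm : 3 ≤ m)
    (hT : (TT k (n + 2 * m) M : ℝ) ≤ Real.exp (A * m) * TT k (n + m) M)
    (hmn : 4 * (m : ℝ) ≤ Real.exp (-(A + 1)) * n) (ht : Typ k n m M ν) :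
    ((n + m).choose ν : ℝ) ^ 2 ≤ Real.exp (2 * (m : ℝ) ^ 2 / (Real.exp (-(A + 1)) * n)) *
      ((n.choose ν : ℝ) * ((n + 2 * m).choose ν : ℝ)) := by
  unfold Typ at ht
  set c := Real.exp (-(A + 1)) with hc
  have hcpos : 0 < c := Real.exp_pos _
  clear_value c
  have hmr : (3 : ℝ) ≤ m := by exact_mod_cast hm
  have hnpos : (0 : ℝ) < n := by
    by_contra h
    have : (n : ℝ) = 0 := le_antisymm (not_lt.1 h) (by positivity)
    rw [this] at hmn; linarith only [hmn, hmr]
  have p2 : (0 : ℝ) ≤ ((n + 2 * m).choose ν : ℝ) := by positivity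
  have q1 : (0 : ℝ) ≤ TT k (n + m) M := by positivity
  have hpos : 0 < ((n + m).choose ν : ℝ) * TT k (n + 2 * m) M := by
    linarith only [mul_nonneg p2 q1, ht]
  have hC1 : (0 : ℝ) < ((n + m).choose ν : ℝ) := by
    rcases (Nat.cast_nonneg (α := ℝ) ((n + m).choose ν)).lt_or_eq with h | h
    · exact h
    · rw [← h] at hpos; simp at hpos
  have hT2 : (0 : ℝ) < TT k (n + 2 * m) M := (pos_iff_pos_of_mul_pos hpos).1 hC1
  have hT1 : (0 : ℝ) < TT k (n + m) M := by
    by_contra h
    have : (TT k (n + m) M : ℝ) = 0 := le_antisymm (not_lt.1 h) q1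
    rw [this] at hT; linarith
  have hν : ν ≤ n + m := by
    by_contra h
    rw [Nat.choose_eq_zero_of_lt (by omega)] at hC1
    simp at hC1
  have h10 : (10 : ℝ) ≤ Real.exp m := by
    have h3 : Real.exp 3 ≤ Real.exp m := Real.exp_le_exp.2 hmr
    have : (10 : ℝ) ≤ Real.exp 3 := by
      have h1 := Real.exp_one_gt_d9
      have e : Real.exp 3 = Real.exp 1 ^ 3 := by rw [← Real.exp_nat_mul]; norm_num
      rw [e]
      have : (2.7 : ℝ) ^ 3 ≤ Real.exp 1 ^ 3 := pow_le_pow_left₀ (by norm_num) (by linarith only [h1]) 3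
      linarith only [this, show (10 : ℝ) ≤ 2.7 ^ 3 by norm_num]
    linarith only [h3, this]
  have hC2 : ((n + 2 * m).choose ν : ℝ) ≤ Real.exp (A + 1) ^ m * ((n + m).choose ν : ℝ) := by
    apply le_of_mul_le_mul_right _ hT1
    calc _ ≤ 10 * ((n + m).choose ν : ℝ) * TT k (n + 2 * m) M := ht.le
      _ ≤ Real.exp m * ((n + m).choose ν : ℝ) * (Real.exp (A * m) * TT k (n + m) M) := by gcongr
      _ = (Real.exp m * Real.exp (A * m)) * ((n + m).choose ν : ℝ) * TT k (n + m) M := by ring
      _ = _ := by rw [← Real.exp_add, ← Real.exp_nat_mul]; congr 3; ring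
  have hL1 : ((n + m).choose ν : ℝ) * ((n + m : ℕ) : ℝ) ^ m ≤
      ((n + 2 * m).choose ν : ℝ) * ((n + 2 * m - ν : ℕ) : ℝ) ^ m := by
    have := choose_add_lower (n + m) ν m hν
    rw [show n + m + m = n + 2 * m by ring] at this
    exact_mod_cast this
  have h5 : ((n + m : ℕ) : ℝ) ^ m ≤ (Real.exp (A + 1) * ((n + 2 * m - ν : ℕ) : ℝ)) ^ m := by
    apply le_of_mul_le_mul_left _ hC1
    calc _ ≤ _ := hL1
      _ ≤ (Real.exp (A + 1) ^ m * ((n + m).choose ν : ℝ)) * ((n + 2 * m - ν : ℕ) : ℝ) ^ m := by
          gcongr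
      _ = _ := by rw [mul_pow]; ring
  have h6 : ((n + m : ℕ) : ℝ) ≤ Real.exp (A + 1) * ((n + 2 * m - ν : ℕ) : ℝ) :=
    le_of_pow_le_pow_left₀ (by omega) (by positivity) h5
  have h7 : c * n ≤ ((n + 2 * m - ν : ℕ) : ℝ) := by
    have e : c * Real.exp (A + 1) = 1 := by rw [hc, ← Real.exp_add]; simp
    have : c * ((n + m : ℕ) : ℝ) ≤ c * (Real.exp (A + 1) * ((n + 2 * m - ν : ℕ) : ℝ)) := by gcongr
    rw [← mul_assoc, e, one_mul] at this
    refine le_trans ?_ this
    gcongr
    exact_mod_cast Nat.le_add_right n m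
  have h8 : 4 * m ≤ n + 2 * m - ν := by
    have : ((4 * m : ℕ) : ℝ) ≤ ((n + 2 * m - ν : ℕ) : ℝ) := by push_cast; linarith only [hmn, h7]
    exact_mod_cast this
  obtain ⟨g, rfl⟩ : ∃ g, n = ν + g := ⟨n - ν, by omega⟩
  have h9 : ν + g + 2 * m - ν = g + 2 * m := by omega
  rw [h9] at h7
  push_cast at h7 hmn hnpos ⊢
  have hg : c * (ν + g) / 2 ≤ g := by linarith only [h7, hmn]
  have hgpos : (0 : ℝ) < g := by
    have : 0 < c * (ν + g) / 2 := by positivity
    linarith only [hmr, h7, hmn]
  have hL2 : (((ν + g + m).choose ν : ℕ) : ℝ) ^ 2 * (g : ℝ) ^ m ≤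
      ((ν + g).choose ν : ℝ) * ((ν + g + 2 * m).choose ν : ℝ) * ((g : ℝ) + m) ^ m := by
    exact_mod_cast choose_second_diff ν g m
  have h11 : ((g : ℝ) + m) ^ m ≤ (g : ℝ) ^ m * Real.exp (2 * (m : ℝ) ^ 2 / (c * (ν + g))) := by
    have a1 : (g : ℝ) + m ≤ g * Real.exp (m / g) := by
      have := Real.add_one_le_exp ((m : ℝ) / g)
      have e : (g : ℝ) + m = g * (m / g + 1) := by field_simp; ring
      rw [e]; gcongr
    calc ((g : ℝ) + m) ^ m ≤ (g * Real.exp (m / g)) ^ m := pow_le_pow_left₀ (by positivity) a1 m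
      _ = (g : ℝ) ^ m * Real.exp (m * (m / g)) := by rw [mul_pow, ← Real.exp_nat_mul]
      _ ≤ _ := by
        refine mul_le_mul_of_nonneg_left (Real.exp_le_exp.2 ?_) (pow_pos hgpos m).le
        rw [← mul_div_assoc, div_le_div_iff₀ hgpos (mul_pos hcpos hnpos)]
        linarith only [mul_le_mul_of_nonneg_left hg (sq_nonneg (m : ℝ))]
  apply le_of_mul_le_mul_right _ (pow_pos hgpos m)
  calc _ ≤ _ := hL2
    _ ≤ ((ν + g).choose ν : ℝ) * ((ν + g + 2 * m).choose ν : ℝ) *
        ((g : ℝ) ^ m * Real.exp (2 * (m : ℝ) ^ 2 / (c * (ν + g)))) := by gcongr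
    _ = _ := by ring

end Pool.Agent.Work.MP_41c404_pr
end
end

-- merged part: Pool.Agent.Work.MP_41c404_pr.Asym1
section
/-! Asymptotic estimates, part 1. -/

namespace Pool.Agent.Work.MP_41c404_pr

open Finset Filter
open scoped Classical

theorem choose_ge_real (a k : ℕ) (x : ℝ) (hx0 : 0 ≤ x) (hx : x ≤ (a : ℝ) + 1 - k) :
    x ^ k / k.factorial ≤ (a.choose k : ℝ) := by
  have h2 : ((a + 1 - k : ℕ) : ℝ) ^ k / k.factorial ≤ (a.choose k : ℝ) := by
    exact_mod_cast (Nat.pow_le_choose k a : ((a + 1 - k : ℕ) : ℝ) ^ k / k.factorial ≤ _)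
  refine le_trans ?_ h2
  have hk : k ≤ a + 1 := by
    have : (k : ℝ) ≤ a + 1 := by linarith only [hx0, hx]
    exact_mod_cast this
  have : x ≤ ((a + 1 - k : ℕ) : ℝ) := by rw [Nat.cast_sub hk]; push_cast; exact hx
  gcongr

theorem choose_le_real (a k : ℕ) : (a.choose k : ℝ) ≤ (a : ℝ) ^ k / k.factorial :=
  Nat.choose_le_pow_div k a

theorem NN_mono (k : ℕ) {a b : ℕ} (h : a ≤ b) : NN k a ≤ NN k b :=
  Nat.mul_le_mul_left _ (Nat.choose_le_choose _ h)

theorem NN_large {k : ℕ} (hk : 2 ≤ k) (D : ℝ) :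
    ∀ᶠ n : ℕ in atTop, D * n < NN k n := by
  filter_upwards [eventually_ge_atTop (2 * k), tendsto_natCast_atTop_atTop.eventually_gt_atTop
    (4 * D * k.factorial : ℝ)] with n h1 h2
  have h1r : (2 * k : ℝ) ≤ n := by exact_mod_cast h1
  have hkr : (2 : ℝ) ≤ k := by exact_mod_cast hk
  have h3 := choose_ge_real n k (n / 2) (by positivity) (by linarith only [h1r])
  have h4 : ((n : ℝ) / 2) ^ 2 ≤ ((n : ℝ) / 2) ^ k := pow_le_pow_right₀ (by linarith only [h1r, hkr]) hk
  have hf : (0 : ℝ) < k.factorial := by exact_mod_cast k.factorial_pos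
  have h5 : (n.choose k : ℝ) ≤ NN k n := by
    unfold NN
    push_cast
    exact le_mul_of_one_le_left (by positivity) (one_le_pow₀ (by norm_num))
  have hn : (0 : ℝ) < n := by linarith only [h1r, hkr]
  calc D * n < ((n : ℝ) / 2) ^ 2 / k.factorial := by
        rw [lt_div_iff₀ hf]; linarith only [h2, h1r, hkr, mul_nonneg_of_nonpos_of_nonpos (le_of_lt (Mathlib.Tactic.Linarith.sub_neg_of_lt h2)) (Mathlib.Tactic.Linarith.sub_nonpos_of_le h1r), mul_nonneg_of_nonpos_of_nonpos (le_of_lt (Mathlib.Tactic.Linarith.sub_neg_of_lt h2)) (Mathlib.Tactic.Linarith.sub_nonpos_of_le hkr)]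
    _ ≤ ((n : ℝ) / 2) ^ k / k.factorial := by gcongr
    _ ≤ _ := h3.trans h5

/-- The size parameter. -/
def ss (k n : ℕ) : ℕ := n / (2 * k) + 1

theorem ss_ge {k : ℕ} (hk : 1 ≤ k) (n : ℕ) : (n : ℝ) / (2 * k) ≤ ss k n := by
  unfold ss
  have hkr : (0 : ℝ) < 2 * k := by have : (1 : ℝ) ≤ k := by exact_mod_cast hk
                                   linarith only [this]
  rw [div_le_iff₀ hkr]
  have := Nat.lt_div_mul_add (a := n) (b := 2 * k) (by omega)
  have h2 : (n : ℝ) ≤ ((n / (2 * k) * (2 * k) + 2 * k : ℕ) : ℝ) := by exact_mod_cast this.le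
  push_cast at h2 ⊢
  linarith only [h2]

theorem ss_le (k n : ℕ) : (ss k n : ℝ) ≤ (n : ℝ) / (2 * k) + 1 := by
  unfold ss
  have : ((n / (2 * k) : ℕ) : ℝ) ≤ (n : ℝ) / ((2 * k : ℕ) : ℝ) := Nat.cast_div_le
  push_cast at this ⊢
  linarith only [this]

theorem crit_ratio {k : ℕ} (hk : 2 ≤ k) (i n : ℕ) (hn : 2 * k * (k - 1) * (i + k) ≤ n) :
    (n.choose k : ℝ) / 4 ≤ (ss k n : ℝ) * ((n - (ss k n + i)).choose (k - 1) : ℝ) := by
  obtain ⟨j, rfl⟩ : ∃ j, k = j + 1 := ⟨k - 1, by omega⟩
  simp only [Nat.add_sub_cancel] at hn ⊢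
  have hj : (1 : ℝ) ≤ j := by exact_mod_cast (by omega : 1 ≤ j)
  have hnr : 2 * ((j : ℝ) + 1) * j * (i + (j + 1)) ≤ n := by exact_mod_cast hn
  have h1 := ss_ge (k := j + 1) (by omega) n
  have h2 := ss_le (j + 1) n
  push_cast at h1 h2
  have hη : (i : ℝ) + (j + 1) ≤ n / (2 * j) - n / (2 * (j + 1)) := by
    have : (n : ℝ) / (2 * j) - n / (2 * (j + 1)) = n / (2 * (j + 1) * j) := by
      field_simp; ring
    rw [this, le_div_iff₀ (by positivity)]
    linarith only [hnr]
  have hhalf : (n : ℝ) / (2 * j) ≤ n / 2 := by gcongr; linarith only [hj]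
  have hle : ss (j + 1) n + i ≤ n := by
    have : ((ss (j + 1) n + i : ℕ) : ℝ) ≤ n := by
      push_cast
      have : (0 : ℝ) ≤ n := by positivity
      linarith only [hj, h2, hη, hhalf]
    exact_mod_cast this
  have h3 := choose_ge_real (n - (ss (j + 1) n + i)) j (n * (1 - 1 / (2 * j)))
    (by
      apply mul_nonneg (by positivity)
      rw [sub_nonneg, div_le_one (by positivity)]; linarith only [hj])
    (by
      rw [Nat.cast_sub hle]
      push_cast
      have : (n : ℝ) * (1 - 1 / (2 * j)) = n - n / (2 * j) := by ring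
      rw [this]
      linarith only [h2, hη])
  have h4 : (1 : ℝ) / 2 ≤ (1 - 1 / (2 * j)) ^ j := by
    have := one_add_mul_le_pow (a := -(1 / (2 * (j : ℝ)))) (by
      have : 1 / (2 * (j : ℝ)) ≤ 1 := by rw [div_le_one (by positivity)]; linarith only [hj]
      linarith only [this]) j
    have e : 1 + (j : ℝ) * -(1 / (2 * (j : ℝ))) = 1 / 2 := by field_simp; ring
    rw [e] at this
    simpa [sub_eq_add_neg] using this
  have hf : (0 : ℝ) < j.factorial := by exact_mod_cast j.factorial_pos
  calc (n.choose (j + 1) : ℝ) / 4 ≤ ((n : ℝ) ^ (j + 1) / (j + 1).factorial) / 4 := by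
        gcongr; exact choose_le_real n (j + 1)
    _ = (n / (2 * (j + 1))) * ((n : ℝ) ^ j * (1 / 2) / j.factorial) := by
        rw [Nat.factorial_succ]; push_cast; field_simp; ring
    _ ≤ (ss (j + 1) n : ℝ) * ((n : ℝ) ^ j * (1 - 1 / (2 * j)) ^ j / j.factorial) := by gcongr
    _ ≤ _ := by rw [← mul_pow]; gcongr

theorem log_const {k : ℕ} (hk : 32 ≤ k) :
    Real.log 2 + 1 / (2 * k) + Real.log (2 * k) / (2 * k) ≤ 0.7775 := by
  have hkr : (32 : ℝ) ≤ k := by exact_mod_cast hk
  have h2 := Real.log_two_lt_d9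
  have h3 : Real.log (2 * k) ≤ 6 * Real.log 2 + (2 * k / 64 - 1) := by
    have e : (2 * k : ℝ) = 2 ^ 6 * (2 * k / 64) := by ring
    conv_lhs => rw [e]
    rw [Real.log_mul (by norm_num) (by positivity), Real.log_pow]
    have := Real.log_le_sub_one_of_pos (show (0 : ℝ) < 2 * k / 64 by positivity)
    push_cast
    linarith only [this]
  have h4 : 1 / (2 * (k : ℝ)) + Real.log (2 * k) / (2 * k) ≤ 0.081 := by
    rw [← add_div, div_le_iff₀ (by positivity)]
    linarith only [hkr, h2, h3]
  linarith only [h2, h4]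

theorem exp_neg_three : Real.exp (-3) ≤ 1 / 10 := by
  have h1 := Real.exp_one_gt_d9
  have e : Real.exp 3 = Real.exp 1 ^ 3 := by rw [← Real.exp_nat_mul]; norm_num
  have : (2.7 : ℝ) ^ 3 ≤ Real.exp 1 ^ 3 := pow_le_pow_left₀ (by norm_num) (by linarith only [h1]) 3
  rw [Real.exp_neg, e, inv_eq_one_div]
  apply one_div_le_one_div_of_le (by norm_num)
  linarith only [this, show (10 : ℝ) ≤ 2.7 ^ 3 by norm_num]

theorem two_pow_eq_exp (n : ℕ) : (2 : ℝ) ^ n = Real.exp (n * Real.log 2) := by
  rw [Real.exp_nat_mul, Real.exp_log (by norm_num)]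

theorem badSum_small {k : ℕ} (hk : 32 ≤ k) (i : ℕ) :
    ∀ᶠ n : ℕ in atTop, ∀ M : ℕ, 0.63 * 2 ^ k * (n : ℝ) - 1 ≤ M →
      (badSum k i (ss k n) n M : ℝ) ≤ TT k n M / 10 := by
  filter_upwards [eventually_ge_atTop (2 * k * (k - 1) * (i + k)), eventually_ge_atTop k,
    tendsto_natCast_atTop_atTop.eventually_ge_atTop
      (100 * ((1 + i) * Real.log (2 * k) + 5) : ℝ)] with n h1 h2 h3 M hM
  have hkr : (32 : ℝ) ≤ k := by exact_mod_cast hk
  have ht : (0 : ℝ) < 1 / (2 * k) := by positivity
  have ht1 : (1 : ℝ) / (2 * k) ≤ 1 := by rw [div_le_one (by positivity)]; linarith only [hkr]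
  have h4 := badSum_le (k := k) (by omega) i (ss k n) n M (Nat.le_add_left 1 _) _ ht ht1
  have h5 := crit_ratio (k := k) (by omega) i n h1
  have hC : (0 : ℝ) < n.choose k := by exact_mod_cast Nat.choose_pos h2
  have hp : (1 : ℝ) ≤ 2 ^ k := one_le_pow₀ (by norm_num)
  have h6 : (5 / 4 : ℝ) / 2 ^ k ≤
      ((n.choose k + ss k n * (n - (ss k n + i)).choose (k - 1) : ℕ) : ℝ) / NN k n := by
    unfold NN
    push_cast
    rw [div_le_div_iff₀ (by positivity) (by positivity)]
    linarith only [h5, hp, mul_nonneg_of_nonpos_of_nonpos (Mathlib.Tactic.Linarith.sub_nonpos_of_le h5) (Mathlib.Tactic.Linarith.sub_nonpos_of_le hp)]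
  have h7 : 0.7875 * (n : ℝ) - 5 / 4 ≤
      ((n.choose k + ss k n * (n - (ss k n + i)).choose (k - 1) : ℕ) : ℝ) / NN k n * M := by
    calc 0.7875 * (n : ℝ) - 5 / 4 ≤ (5 / 4 : ℝ) / 2 ^ k * (0.63 * 2 ^ k * (n : ℝ) - 1) := by
          have : (5 / 4 : ℝ) / 2 ^ k * (0.63 * 2 ^ k * (n : ℝ) - 1) =
              0.7875 * n - (5 / 4) / 2 ^ k := by field_simp; ring
          rw [this]
          have : (5 / 4 : ℝ) / 2 ^ k ≤ 5 / 4 := div_le_self (by norm_num) hp
          linarith only [this]
      _ ≤ (5 / 4 : ℝ) / 2 ^ k * M := by gcongr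
      _ ≤ _ := by gcongr
  have hlog : 0 ≤ Real.log (2 * k) := Real.log_nonneg (by linarith only [hkr])
  have h8 : (1 + 1 / (2 * (k : ℝ))) ^ n / (1 / (2 * (k : ℝ))) ^ (ss k n + i) ≤
      Real.exp (n * (1 / (2 * k)) + (n / (2 * k) + 1 + i) * Real.log (2 * k)) := by
    rw [Real.exp_add, div_eq_mul_inv, ← inv_pow, one_div, inv_inv]
    apply mul_le_mul _ _ (by positivity) (by positivity)
    · rw [Real.exp_nat_mul]
      apply pow_le_pow_left₀ (by positivity)
      linarith only [Real.add_one_le_exp ((2 * (k : ℝ))⁻¹)]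
    · have : (2 * (k : ℝ)) ^ (ss k n + i) = Real.exp ((ss k n + i : ℕ) * Real.log (2 * k)) := by
        rw [Real.exp_nat_mul, Real.exp_log (by positivity)]
      rw [this, Real.exp_le_exp]
      apply mul_le_mul_of_nonneg_right _ hlog
      push_cast
      linarith only [ss_le k n]
  have h9 := log_const hk
  refine h4.trans ?_
  calc _ ≤ 2 ^ n * Real.exp (n * (1 / (2 * k)) + (n / (2 * k) + 1 + i) * Real.log (2 * k)) *
        (TT k n M : ℝ) * Real.exp (-(0.7875 * (n : ℝ) - 5 / 4)) := by
        gcongr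
    _ = (TT k n M : ℝ) * Real.exp (n * Real.log 2 +
        (n * (1 / (2 * k)) + (n / (2 * k) + 1 + i) * Real.log (2 * k)) +
        -(0.7875 * (n : ℝ) - 5 / 4)) := by
        rw [two_pow_eq_exp]; simp only [Real.exp_add]; ring
    _ ≤ (TT k n M : ℝ) * Real.exp (-3) := by
        gcongr
        have : (n : ℝ) * (Real.log 2 + 1 / (2 * k) + Real.log (2 * k) / (2 * k)) ≤ n * 0.7775 := by
          gcongr
        have e : n * Real.log 2 + (n * (1 / (2 * k)) + (n / (2 * k) + 1 + i) * Real.log (2 * k)) =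
            (n : ℝ) * (Real.log 2 + 1 / (2 * k) + Real.log (2 * k) / (2 * k)) +
              (1 + i) * Real.log (2 * k) := by ring
        rw [e]
        linarith only [h3, this]
    _ ≤ (TT k n M : ℝ) * (1 / 10) := by gcongr; exact exp_neg_three
    _ = _ := by ring

theorem satSum_small (k : ℕ) (d : ℝ) (hd : 2 ^ k ≤ d) :
    ∀ᶠ n : ℕ in atTop, (satSum k n ⌊d * n⌋₊ : ℝ) ≤
      TT k n ⌊d * n⌋₊ * Real.exp (-(1 / 4 * n)) := by
  filter_upwards [eventually_ge_atTop k, eventually_ge_atTop 20] with n h2 h3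
  have hC : (0 : ℝ) < n.choose k := by exact_mod_cast Nat.choose_pos h2
  have hn : (20 : ℝ) ≤ n := by exact_mod_cast h3
  have hp : (1 : ℝ) ≤ 2 ^ k := one_le_pow₀ (by norm_num)
  rw [satSum_eq]
  push_cast
  have h4 := choose_sub_le_exp (NN k n) (n.choose k) ⌊d * n⌋₊
  have h5 : (n.choose k : ℝ) / NN k n = 1 / 2 ^ k := by
    unfold NN; push_cast; field_simp
  rw [h5] at h4
  have h6 : d * n - 1 ≤ ⌊d * n⌋₊ := (Nat.sub_one_lt_floor _).le
  have h7 : (n : ℝ) - 1 ≤ 1 / 2 ^ k * ⌊d * n⌋₊ := by
    calc (n : ℝ) - 1 ≤ 1 / 2 ^ k * (2 ^ k * n - 1) := by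
          have : (1 : ℝ) / 2 ^ k * (2 ^ k * n - 1) = n - 1 / 2 ^ k := by field_simp
          rw [this]
          have : (1 : ℝ) / 2 ^ k ≤ 1 := div_le_self (by norm_num) hp
          linarith only [this]
      _ ≤ 1 / 2 ^ k * (d * n - 1) := by gcongr
      _ ≤ _ := by gcongr
  have h2' := Real.log_two_lt_d9
  calc _ ≤ (2 : ℝ) ^ n * (TT k n ⌊d * n⌋₊ * Real.exp (-((n : ℝ) - 1))) := by
        gcongr
        exact h4.trans (by unfold TT; gcongr)
    _ = TT k n ⌊d * n⌋₊ * Real.exp (n * Real.log 2 + -((n : ℝ) - 1)) := by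
        rw [two_pow_eq_exp, Real.exp_add]; ring
    _ ≤ _ := by
        gcongr
        linarith only [hn, h2', mul_nonneg_of_nonpos_of_nonpos (Mathlib.Tactic.Linarith.sub_nonpos_of_le (Mathlib.Tactic.Linarith.natCast_nonneg ℝ n)) (le_of_lt (Mathlib.Tactic.Linarith.sub_neg_of_lt h2'))]

theorem expMaximal_small (k i : ℕ) (d : ℝ) (hd : 2 ^ k ≤ d) : ExpSmall k i d := by
  refine ⟨1 / 4, by norm_num, ?_⟩
  filter_upwards [satSum_small k d hd] with n hn
  unfold expMaximal
  rw [card_formulas']
  apply div_le_of_le_mul₀ (by positivity) (by positivity)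
  refine le_trans ?_ (hn.trans (le_of_eq (mul_comm _ _)))
  unfold satSum
  push_cast
  apply sum_le_sum
  intro F _
  exact_mod_cast numMaximal_le_sat i F

theorem not_sat_of_large (k : ℕ) (d : ℝ) (hd : 2 ^ k ≤ d) :
    ¬ Tendsto (fun n : ℕ => satProb k n ⌊d * n⌋₊) atTop (nhds 1) := by
  intro h
  have h1 := h.eventually (lt_mem_nhds (show (1 / 2 : ℝ) < 1 by norm_num))
  have h2 := satSum_small k d hd
  obtain ⟨n, ⟨h3, h4⟩, h5⟩ := ((h1.and h2).and (eventually_ge_atTop 12)).exists
  have hn : (12 : ℝ) ≤ n := by exact_mod_cast h5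
  have h6 : satProb k n ⌊d * n⌋₊ ≤ Real.exp (-(1 / 4 * n)) := by
    unfold satProb
    rw [card_formulas']
    apply div_le_of_le_mul₀ (by positivity) (by positivity)
    refine le_trans ?_ (h4.trans (le_of_eq (mul_comm _ _)))
    unfold satSum
    rw [card_filter]
    apply Nat.cast_le.2
    apply sum_le_sum
    intro F _
    split_ifs with hF
    · obtain ⟨A, hA⟩ := hF
      exact card_pos.2 ⟨A, by simp [hA]⟩
    · exact Nat.zero_le _
  have h7 : Real.exp (-(1 / 4 * (n : ℝ))) ≤ Real.exp (-3) := by gcongr; linarith only [hn]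
  have := exp_neg_three
  linarith only [h3, h6, h7, this]

/-- Case 1: at density `0.66 * 2 ^ k` the expectation is exponentially large. -/
theorem expLarge_planted {k : ℕ} (hk : 32 ≤ k) (i : ℕ) : ExpLarge k i (0.66 * 2 ^ k) := by
  refine ⟨0.01, by norm_num, ?_⟩
  filter_upwards [badSum_small hk i, NN_large (k := k) (by omega) (1000 * 2 ^ k * 2 ^ k),
    eventually_ge_atTop k, eventually_ge_atTop 600] with n h1 h2 h3 h4
  set M := ⌊0.66 * 2 ^ k * (n : ℝ)⌋₊ with hM
  have hn : (600 : ℝ) ≤ n := by exact_mod_cast h4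
  have hkr : (32 : ℝ) ≤ k := by exact_mod_cast hk
  have hp : (1000 : ℝ) ≤ 2 ^ k :=
    le_trans (by norm_num) (pow_le_pow_right₀ (by norm_num : (1 : ℝ) ≤ 2) hk)
  have hM1 : (M : ℝ) ≤ 0.66 * 2 ^ k * n := Nat.floor_le (by positivity)
  have hM2 : 0.66 * 2 ^ k * (n : ℝ) - 1 ≤ M := (Nat.sub_one_lt_floor _).le
  clear_value M
  clear hM
  have hpn : (0 : ℝ) ≤ 2 ^ k * n := by positivity
  have hbad := h1 M (by linarith only [hM2])
  clear h1
  have hC : (0 : ℝ) < n.choose k := by exact_mod_cast Nat.choose_pos h3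
  have hN : (NN k n : ℝ) = 2 ^ k * n.choose k := by unfold NN; push_cast; ring
  have hNpos : (0 : ℝ) < NN k n := by rw [hN]; positivity
  set u : ℝ := 1 / 2 ^ k with hu
  have hu0 : 0 < u := by positivity
  have hu1 : u ≤ 1 / 1000 := one_div_le_one_div_of_le (by norm_num) hp
  clear_value u
  have hCu : (n.choose k : ℝ) = u * NN k n := by rw [hN, hu]; field_simp
  have hMu : (M : ℝ) ≤ u / 1000 * NN k n := by
    have : u / 1000 * (1000 * 2 ^ k * 2 ^ k * n) = 2 ^ k * n := by rw [hu]; field_simp
    calc (M : ℝ) ≤ 2 ^ k * n := by linarith only [hM1, hpn]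
      _ = _ := this.symm
      _ ≤ _ := mul_le_mul_of_nonneg_left h2.le (div_nonneg hu0.le (by norm_num))
  have hsum : n.choose k + M ≤ NN k n := by
    have : ((n.choose k + M : ℕ) : ℝ) ≤ NN k n := by
      push_cast
      linarith only [hCu, hMu, hNpos, mul_le_mul_of_nonneg_right hu1 hNpos.le]
    exact_mod_cast this
  have hT : (0 : ℝ) < TT k n M := by
    unfold TT; exact_mod_cast Nat.choose_pos (by omega)
  have h5 : (TT k n M : ℝ) * ((NN k n : ℝ) - n.choose k - M) ^ M ≤
      ((NN k n - n.choose k).choose M : ℝ) * (NN k n : ℝ) ^ M := by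
    have := choose_mul_sub_pow_le (NN k n - n.choose k) (NN k n) M
    have h' : ((((NN k n).choose M * (NN k n - n.choose k - M) ^ M : ℕ)) : ℝ) ≤
        (((NN k n - n.choose k).choose M * NN k n ^ M : ℕ) : ℝ) := by exact_mod_cast this
    push_cast [Nat.cast_sub (show M ≤ NN k n - n.choose k by omega),
      Nat.cast_sub (show n.choose k ≤ NN k n by omega)] at h'
    exact h'
  have h6 : (NN k n : ℝ) * Real.exp (-(1.01 * u)) ≤ (NN k n : ℝ) - n.choose k - M := by
    have a1 : Real.exp (-(1.01 * u)) ≤ 1 - 1.001 * u := by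
      have := Real.add_one_le_exp (1.01 * u)
      rw [Real.exp_neg, inv_eq_one_div, div_le_iff₀ (Real.exp_pos _)]
      have h0 : 0 ≤ 1 - 1.001 * u := by linarith only [hu1]
      linarith only [mul_le_mul_of_nonneg_left this h0, hu0,
        mul_le_mul_of_nonneg_left hu1 hu0.le]
    linarith only [mul_le_mul_of_nonneg_left a1 hNpos.le, hCu, hMu]
  have h7 : (TT k n M : ℝ) * Real.exp (-(0.6666 * n)) ≤ ((NN k n - n.choose k).choose M : ℝ) := by
    apply le_of_mul_le_mul_right _ (pow_pos hNpos M)
    refine le_trans ?_ h5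
    rw [mul_assoc]
    refine mul_le_mul_of_nonneg_left ?_ hT.le
    refine le_trans ?_ (pow_le_pow_left₀ (mul_nonneg hNpos.le (Real.exp_pos _).le) h6 M)
    rw [mul_pow, mul_comm, ← Real.exp_nat_mul]
    refine mul_le_mul_of_nonneg_left (Real.exp_le_exp.2 ?_) (pow_pos hNpos M).le
    have : u * M ≤ 0.66 * n := by
      calc u * M ≤ u * (0.66 * 2 ^ k * n) := mul_le_mul_of_nonneg_left hM1 hu0.le
        _ = _ := by rw [hu]; field_simp
    linarith only [this]
  have h8 : (satSum k n M : ℝ) ≤ badSum k i (ss k n) n M +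
      (∑ F ∈ formulas k n M, (numMaximal i F : ℝ)) * 2 ^ ss k n := by
    exact_mod_cast satSum_le k i (ss k n) n M
  have hl := Real.log_two_gt_d9
  have hl' := Real.log_two_lt_d9
  have h9 : (TT k n M : ℝ) * Real.exp (0.0265 * n) ≤ satSum k n M := by
    rw [satSum_eq]
    push_cast
    refine le_trans ?_ (mul_le_mul_of_nonneg_left h7 (pow_pos two_pos n).le)
    rw [two_pow_eq_exp, mul_left_comm, ← Real.exp_add]
    refine mul_le_mul_of_nonneg_left (Real.exp_le_exp.2 ?_) hT.le
    have hn0 : (0 : ℝ) ≤ n := Nat.cast_nonneg n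
    linarith only [mul_le_mul_of_nonneg_left hl.le hn0, hn0]
  have h10 : (2 : ℝ) ^ ss k n ≤ 2 * Real.exp (0.011 * n) := by
    rw [two_pow_eq_exp]
    have a1 := ss_le k n
    have hn0 : (0 : ℝ) ≤ n := Nat.cast_nonneg n
    have a2 : (n : ℝ) / (2 * k) ≤ n / 64 :=
      div_le_div_of_nonneg_left hn0 (by norm_num) (by linarith only [hkr])
    calc Real.exp (ss k n * Real.log 2) ≤ Real.exp (Real.log 2 + 0.011 * n) := by
          refine Real.exp_le_exp.2 ?_
          have a3 : (ss k n : ℝ) ≤ n / 64 + 1 := by linarith only [a1, a2]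
          linarith only [mul_le_mul_of_nonneg_right a3 (show 0 ≤ Real.log 2 by linarith only [hl]),
            mul_le_mul_of_nonneg_left hl'.le hn0, hn0]
      _ = _ := by rw [Real.exp_add, Real.exp_log (by norm_num)]
  unfold expMaximal
  rw [card_formulas', le_div_iff₀ hT]
  set X := ∑ F ∈ formulas k n M, (numMaximal i F : ℝ)
  have hX : 0 ≤ X := sum_nonneg fun _ _ => Nat.cast_nonneg _
  clear_value X
  have h11 : (TT k n M : ℝ) * Real.exp (0.0265 * n) ≤ TT k n M / 10 +
      X * (2 * Real.exp (0.011 * n)) :=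
    h9.trans (h8.trans (add_le_add hbad (mul_le_mul_of_nonneg_left h10 hX)))
  clear * - h11 hT hn
  have e1 : Real.exp (0.0265 * n) = Real.exp (0.01 * n) * Real.exp (0.011 * n) *
      Real.exp (0.0055 * n) := by
    rw [← Real.exp_add, ← Real.exp_add]; congr 1; ring
  have a1 : 4 ≤ Real.exp (0.0055 * n) := by
    linarith only [Real.add_one_le_exp (0.0055 * (n : ℝ)), hn]
  have a2 : 1 ≤ Real.exp (0.01 * n) := Real.one_le_exp (by positivity)
  have a3 : 1 ≤ Real.exp (0.011 * n) := Real.one_le_exp (by positivity)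
  apply le_of_mul_le_mul_right _ (show 0 < 2 * Real.exp (0.011 * n) by positivity)
  have a4 : 1 ≤ Real.exp (0.01 * n) * Real.exp (0.011 * n) := one_le_mul_of_one_le_of_one_le a2 a3
  have a5 : (TT k n M : ℝ) * (Real.exp (0.01 * n) * Real.exp (0.011 * n) * 4) ≤
      TT k n M * Real.exp (0.0265 * n) := by rw [e1]; gcongr
  linarith only [mul_le_mul_of_nonneg_left a4 hT.le, a5, h11, hT]

end Pool.Agent.Work.MP_41c404_pr
end
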