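import Pool.Agent.Work.MP_41c404_pr.Asym1

-- merged part: Pool.Agent.Work.MP_41c404_pr.Asym2
section
/-! Asymptotic estimates, part 2: the tilting argument. -/

namespace Pool.Agent.Work.MP_41c404_pr

open Finset Filter
open scoped Classical

theorem killer_ratio {k : ℕ} (hk : 32 ≤ k) (n : ℕ) (hn : 4 * k ≤ n) :
    (1 : ℝ) / 4 ^ k ≤ (((n - ss k n).choose k : ℕ) : ℝ) / NN k n := by
  have hkr : (32 : ℝ) ≤ k := by exact_mod_cast hk
  have hnr : (4 * k : ℝ) ≤ n := by exact_mod_cast hn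
  have a1 := ss_le k n
  have a2 : (n : ℝ) / (2 * k) ≤ n / 64 := by gcongr; linarith only [hkr]
  have hle : ss k n ≤ n := by
    have : (ss k n : ℝ) ≤ n := by linarith only [hkr, hnr, a1, a2]
    exact_mod_cast this
  have h1 := choose_ge_real (n - ss k n) k (n / 2) (by positivity) (by
    rw [Nat.cast_sub hle]; linarith only [hkr, hnr, a1, a2])
  have h2 := choose_le_real n k
  have hC : (0 : ℝ) < n.choose k := by exact_mod_cast Nat.choose_pos (by omega)
  unfold NN
  push_cast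
  rw [div_le_div_iff₀ (by positivity) (by positivity)]
  have e : (4 : ℝ) ^ k = 2 ^ k * 2 ^ k := by rw [← mul_pow]; norm_num
  calc 1 * (2 ^ k * (n.choose k : ℝ)) ≤ 1 * (2 ^ k * ((n : ℝ) ^ k / k.factorial)) := by gcongr
    _ = (((n : ℝ) / 2) ^ k / k.factorial) * 4 ^ k := by rw [e, div_pow]; field_simp
    _ ≤ _ := by gcongr

theorem TT_ratio (k n m M : ℕ) (D : ℝ) (hn : 0 < n) (hkm : k ≤ m) (hM : (M : ℝ) ≤ D * n)
    (hMN : 2 * (M : ℝ) * n ≤ m * NN k (n + m)) (hmn : m ≤ n) (hN : 0 < NN k (n + m)) :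
    (TT k (n + 2 * m) M : ℝ) ≤ Real.exp ((2 * k + 1) * D * m) * TT k (n + m) M := by
  have hnr : (0 : ℝ) < n := by exact_mod_cast hn
  have hmnr : (m : ℝ) ≤ n := by exact_mod_cast hmn
  have hkmr : (k : ℝ) ≤ m := by exact_mod_cast hkm
  have hNr : (0 : ℝ) < NN k (n + m) := by exact_mod_cast hN
  have hM2 : 2 * (M : ℝ) ≤ NN k (n + m) := by
    apply le_of_mul_le_mul_right _ hnr
    linarith only [hMN, hmnr, mul_nonneg_of_nonpos_of_nonpos (Mathlib.Tactic.Linarith.sub_nonpos_of_le (Mathlib.Tactic.Linarith.natCast_nonneg ℝ (NN k (n + m)))) (Mathlib.Tactic.Linarith.sub_nonpos_of_le hmnr)]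
  have hMle : M ≤ NN k (n + m) := by
    have : (M : ℝ) ≤ NN k (n + m) := by
      have : (0 : ℝ) ≤ M := by positivity
      linarith only [hNr, hM2]
    exact_mod_cast this
  have h1 : (TT k (n + 2 * m) M : ℝ) * ((NN k (n + m) : ℝ) - M) ^ M ≤
      (TT k (n + m) M : ℝ) * (NN k (n + 2 * m) : ℝ) ^ M := by
    have := choose_mul_sub_pow_le (NN k (n + m)) (NN k (n + 2 * m)) M
    have h' : ((((NN k (n + 2 * m)).choose M * (NN k (n + m) - M) ^ M : ℕ)) : ℝ) ≤
        (((NN k (n + m)).choose M * NN k (n + 2 * m) ^ M : ℕ) : ℝ) := by exact_mod_cast this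
    push_cast [Nat.cast_sub hMle] at h'
    exact h'
  have h2 : (NN k (n + 2 * m) : ℝ) ≤ NN k (n + m) * Real.exp (k * (2 * m / n)) := by
    have a1 := choose_ge_real (n + m) k n hnr.le (by push_cast; linarith only [hkmr])
    have a2 := choose_le_real (n + 2 * m) k
    have a3 : ((n + 2 * m : ℕ) : ℝ) ≤ n * Real.exp (2 * m / n) := by
      have := Real.add_one_le_exp (2 * (m : ℝ) / n)
      have e : ((n + 2 * m : ℕ) : ℝ) = n * (2 * m / n + 1) := by push_cast; field_simp; ring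
      rw [e]; gcongr
    unfold NN
    push_cast at a2 a3 ⊢
    calc (2 : ℝ) ^ k * ((n + 2 * m).choose k : ℝ) ≤ 2 ^ k * (((n : ℝ) + 2 * m) ^ k / k.factorial) := by
          gcongr
      _ ≤ 2 ^ k * ((n * Real.exp (2 * m / n)) ^ k / k.factorial) := by gcongr
      _ = 2 ^ k * ((n : ℝ) ^ k / k.factorial) * Real.exp (k * (2 * m / n)) := by
          rw [mul_pow, ← Real.exp_nat_mul]; ring
      _ ≤ _ := by gcongr
  have h3 : (NN k (n + m) : ℝ) ≤ ((NN k (n + m) : ℝ) - M) * Real.exp (m / n) := by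
    have a1 := Real.add_one_le_exp ((m : ℝ) / n)
    have a2 : (NN k (n + m) : ℝ) ≤ ((NN k (n + m) : ℝ) - M) * (m / n + 1) := by
      have e : ((NN k (n + m) : ℝ) - M) * (m / n + 1) =
          NN k (n + m) + (m * NN k (n + m) - M * m - M * n) / n := by field_simp; ring
      rw [e]
      have : 0 ≤ (m * NN k (n + m) - M * m - M * n : ℝ) / n := by
        apply div_nonneg _ hnr.le
        have : (M : ℝ) * m ≤ M * n := by gcongr
        linarith only [hMN, this]
      linarith only [this]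
    refine a2.trans ?_
    gcongr
    linarith only [hNr, hM2]
  have hpos : (0 : ℝ) < (NN k (n + m) : ℝ) - M := by linarith only [hNr, hM2]
  have h4 : (NN k (n + 2 * m) : ℝ) ≤ ((NN k (n + m) : ℝ) - M) * Real.exp ((2 * k + 1) * (m / n)) := by
    refine h2.trans ?_
    have e : Real.exp ((2 * k + 1) * (m / n)) = Real.exp (m / n) * Real.exp (k * (2 * m / n)) := by
      rw [← Real.exp_add]; congr 1; ring
    rw [e, ← mul_assoc]
    gcongr
  apply le_of_mul_le_mul_right _ (pow_pos hpos M)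
  refine h1.trans ?_
  calc (TT k (n + m) M : ℝ) * (NN k (n + 2 * m) : ℝ) ^ M
      ≤ (TT k (n + m) M : ℝ) * (((NN k (n + m) : ℝ) - M) *
          Real.exp ((2 * k + 1) * (m / n))) ^ M := by gcongr
    _ = Real.exp (M * ((2 * k + 1) * (m / n))) * TT k (n + m) M * ((NN k (n + m) : ℝ) - M) ^ M := by
        rw [mul_pow, ← Real.exp_nat_mul]; ring
    _ ≤ _ := by
        gcongr Real.exp ?_ * _ * _
        calc (M : ℝ) * ((2 * k + 1) * (m / n)) ≤ (D * n) * ((2 * k + 1) * (m / n)) := by gcongr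
          _ = _ := by field_simp

theorem tilt_final (T0 T1 P Bd At x S B X y : ℝ) (hT1 : 0 < T1) (hT0 : 0 < T0)
    (hP : 0.9 ≤ P) (h1 : P * T1 ≤ Bd + At + x * S) (hBd : Bd ≤ T1 / 10) (hAt : At ≤ T1 / 10)
    (hS : 0 ≤ S) (hX : 0 ≤ X) (hy : 0 < y) (hx : x * y ^ 2 ≤ 1) (h2 : T0 * S ≤ 10 * B * T1 * X)
    (hB : B ≤ y) : 0.07 * y * T0 ≤ X := by
  have a1 : 0.7 * T1 ≤ x * S := by linarith only [h1, hBd, hAt, hT1, hP, mul_nonneg_of_nonpos_of_nonpos (le_of_lt (Mathlib.Tactic.Linarith.sub_neg_of_lt hT1)) (Mathlib.Tactic.Linarith.sub_nonpos_of_le hP)]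
  have a2 : 0.7 * T1 * y ^ 2 ≤ S := by
    calc 0.7 * T1 * y ^ 2 ≤ x * S * y ^ 2 := by gcongr
      _ = (x * y ^ 2) * S := by ring
      _ ≤ 1 * S := by gcongr
      _ = S := one_mul _
  have a3 : T0 * (0.7 * T1 * y ^ 2) ≤ 10 * y * T1 * X := by
    calc _ ≤ T0 * S := by gcongr
      _ ≤ _ := h2
      _ ≤ _ := by gcongr
  apply le_of_mul_le_mul_left _ (show 0 < 10 * y * T1 by positivity)
  linarith only [a3]

/-- Case 2: slightly above a large satisfiability threshold the expectation is large. -/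
theorem expLarge_tilt {k : ℕ} (hk : 32 ≤ k) (θ : ℝ) (hθ1 : 0.66 * 2 ^ k ≤ θ) (hθ2 : θ ≤ 2 ^ k) :
    ∃ δ : ℝ, 0 < δ ∧ ∀ d'' : ℝ, θ - δ < d'' →
      Tendsto (fun n : ℕ => satProb k n ⌊d'' * n⌋₊) atTop (nhds 1) →
      ∀ i, 1 ≤ i → ExpLarge k i (θ + δ) := by
  set D : ℝ := 2 * 2 ^ k with hD
  set A : ℝ := (2 * k + 1) * D with hA
  set c : ℝ := Real.exp (-(A + 1)) with hc
  set κ : ℝ := 1 / 4 ^ k with hκ
  have hcpos : 0 < c := Real.exp_pos _
  have hκpos : 0 < κ := by positivity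
  have hκ1 : κ ≤ 1 := div_le_self (by norm_num) (one_le_pow₀ (by norm_num))
  have hDpos : 0 < D := by positivity
  clear_value κ c A D
  have hp : (1000 : ℝ) ≤ 2 ^ k :=
    le_trans (by norm_num) (pow_le_pow_right₀ (by norm_num : (1 : ℝ) ≤ 2) hk)
  obtain ⟨q, hq⟩ := exists_nat_ge (21 + 4 / (c * κ))
  have hq0 : 0 < 4 / (c * κ) := by positivity
  have hq21 : (21 : ℝ) ≤ q := by linarith only [hq, hq0]
  have hq21' : 21 ≤ q := by exact_mod_cast hq21
  have hqc : 4 ≤ c * κ * q := by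
    have : 4 / (c * κ) ≤ q := by linarith only [hq]
    rw [div_le_iff₀ (by positivity)] at this
    linarith only [this]
  have hθpos : 0 < θ := by linarith only [hθ1, hp]
  refine ⟨θ / (6 * q), by positivity, ?_⟩
  intro d'' hd'' hsat i hi
  set δ := θ / (6 * q) with hδ
  have hδ1 : δ ≤ θ / 6 := by rw [hδ]; gcongr; linarith only [hq, hq0]
  have hδpos : 0 < δ := by positivity
  clear_value δ
  have htend : Tendsto (fun n : ℕ => n + n / q) atTop atTop :=
    tendsto_atTop_mono (fun n => Nat.le_add_right _ _) tendsto_id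
  refine ⟨κ / (8 * q), by positivity, ?_⟩
  filter_upwards [htend.eventually (badSum_small hk i),
    htend.eventually (hsat.eventually (lt_mem_nhds (show (0.9 : ℝ) < 1 by norm_num))),
    NN_large (k := k) (by omega) (4 * q * D), eventually_ge_atTop (q * (k + 3)),
    eventually_ge_atTop (4 * k),
    tendsto_natCast_atTop_atTop.eventually_ge_atTop (15 * (8 * q / κ) : ℝ)]
    with n hbad hP hN hn1 hn2 hn3
  set m := n / q with hm
  set M := ⌊(θ + δ) * n⌋₊ with hM
  have hqpos : 0 < q := by omega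
  have hm1 : k + 3 ≤ m := by
    rw [hm, Nat.le_div_iff_mul_le hqpos, mul_comm]; exact hn1
  have hm2 : m * q ≤ n := Nat.div_mul_le_self n q
  have hm3 : n ≤ 2 * (m * q) := by
    have := Nat.lt_div_mul_add (a := n) (b := q) hqpos
    rw [← hm] at this
    have : q ≤ m * q := Nat.le_mul_of_pos_left _ (by omega)
    omega
  have hm1r : (k : ℝ) + 3 ≤ m := by exact_mod_cast hm1
  have hm2r : (m : ℝ) * q ≤ n := by exact_mod_cast hm2
  have hm3r : (n : ℝ) ≤ 2 * (m * q) := by exact_mod_cast hm3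
  have hkr : (32 : ℝ) ≤ k := by exact_mod_cast hk
  have hmn : m ≤ n := Nat.div_le_self _ _
  have hnpos : 0 < n := by omega
  have hnr : (0 : ℝ) < n := by exact_mod_cast hnpos
  have hM2 : (θ + δ) * n - 1 ≤ M := (Nat.sub_one_lt_floor _).le
  have hM3 : (M : ℝ) ≤ (θ + δ) * n :=
    Nat.floor_le (mul_nonneg (add_pos hθpos hδpos).le hnr.le)
  clear_value M m
  clear hM hm htend hsat hq hq0
  have hm0 : (0 : ℝ) ≤ m := Nat.cast_nonneg m
  have hq0 : (0 : ℝ) < q := by linarith only [hq21]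
  have hM1 : (M : ℝ) ≤ D * n :=
    hM3.trans (mul_le_mul_of_nonneg_right (by linarith only [hD, hθ2, hδ1, hp]) hnr.le)
  have hMN : M < NN k n := by
    have : (M : ℝ) < NN k n := by
      refine lt_of_le_of_lt (hM1.trans ?_) hN
      refine mul_le_mul_of_nonneg_right ?_ hnr.le
      linarith only [mul_le_mul_of_nonneg_right hq21 hDpos.le, hDpos]
    exact_mod_cast this
  have hN1 : NN k n ≤ NN k (n + m) := NN_mono k (by omega)
  have hN2 : NN k n ≤ NN k (n + 2 * m) := NN_mono k (by omega)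
  have hT0 : (0 : ℝ) < TT k n M := by unfold TT; exact_mod_cast Nat.choose_pos (by omega)
  have hT1 : (0 : ℝ) < TT k (n + m) M := by unfold TT; exact_mod_cast Nat.choose_pos (by omega)
  have hT2 : 0 < TT k (n + 2 * m) M := by unfold TT; exact Nat.choose_pos (by omega)
  -- rigidity
  have hb := hbad M (by
    push_cast
    have a1 : (m : ℝ) * 21 ≤ n := le_trans (mul_le_mul_of_nonneg_left hq21 hm0) hm2r
    have a2 : 0.66 * 2 ^ k * (n : ℝ) ≤ (θ + δ) * n :=
      mul_le_mul_of_nonneg_right (by linarith only [hθ1, hδpos]) hnr.le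
    have a3 : (0 : ℝ) ≤ 2 ^ k * (n - m * 21) :=
      mul_nonneg (pow_pos two_pos k).le (by linarith only [a1])
    have a4 : (0 : ℝ) ≤ 2 ^ k * m := mul_nonneg (pow_pos two_pos k).le hm0
    linarith only [a2, a3, a4, hM2])
  clear hbad
  -- the number of extra clauses
  have hΔ : M + m ≤ ⌊d'' * ((n + m : ℕ) : ℝ)⌋₊ := by
    apply Nat.le_floor
    push_cast
    have a1 : 2 * δ * n ≤ 2 * θ / 3 * m := by
      calc 2 * δ * n ≤ 2 * δ * (2 * (m * q)) :=
            mul_le_mul_of_nonneg_left hm3r (mul_pos two_pos hδpos).le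
        _ = _ := by rw [hδ]; field_simp; ring
    have a2 : (θ - δ) * (n + m) ≤ d'' * (n + m) :=
      mul_le_mul_of_nonneg_right hd''.le (add_nonneg hnr.le hm0)
    have a3 : δ * m ≤ θ / 6 * m := mul_le_mul_of_nonneg_right hδ1 hm0
    have a4 : 12 * (m : ℝ) ≤ θ * m :=
      mul_le_mul_of_nonneg_right (by linarith only [hθ1, hp]) hm0
    linarith only [a1, a2, a3, a4, hM3, hm0]
  obtain ⟨Δ, hΔe⟩ : ∃ Δ, ⌊d'' * ((n + m : ℕ) : ℝ)⌋₊ = M + Δ := ⟨_, (Nat.add_sub_cancel' (by omega)).symm⟩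
  simp only [hΔe] at hP
  have hΔm : (m : ℝ) ≤ Δ := by exact_mod_cast (by omega : m ≤ Δ)
  have hA1 := satProb_le k i (ss k (n + m)) (n + m) M Δ (Typ k n m M) (by omega) (by linarith only [hP])
  have hA2 := card_atyp_le k n m M hT2
  have hTr := TT_ratio k n m M D hnpos (by omega) hM1 (by
    have a1 : (NN k n : ℝ) ≤ NN k (n + m) := by exact_mod_cast hN1
    calc 2 * (M : ℝ) * n ≤ 2 * (D * n) * (2 * (m * q)) :=
          mul_le_mul (mul_le_mul_of_nonneg_left hM1 two_pos.le) hm3r hnr.le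
            (mul_pos two_pos (mul_pos hDpos hnr)).le
      _ = m * (4 * q * D * n) := by ring
      _ ≤ m * NN k (n + m) := mul_le_mul_of_nonneg_left (hN.le.trans a1) hm0) hmn (by omega)
  have hcq : 4 ≤ c * q := by
    have : c * κ * q ≤ c * 1 * q :=
      mul_le_mul_of_nonneg_right (mul_le_mul_of_nonneg_left hκ1 hcpos.le) hq0.le
    linarith only [this, hqc]
  have hmc : 4 * (m : ℝ) ≤ c * n := by
    calc 4 * (m : ℝ) ≤ c * q * m := mul_le_mul_of_nonneg_right hcq hm0
      _ = c * (m * q) := by ring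
      _ ≤ _ := mul_le_mul_of_nonneg_left hm2r hcpos.le
  have hA3 := sum_typ_le k n m M hi _ (Real.exp_pos _).le
    (fun ν hν => typ_second_diff k n m M ν A (by omega) (hA ▸ hTr) (hc ▸ hmc) hν)
  rw [← hc] at hA3
  have hkr' := killer_ratio hk (n + m) (by omega)
  rw [← hκ] at hkr'
  have hfin := tilt_final _ _ _ _ _ _ _ _ _ (Real.exp (κ * m / 2)) hT1 hT0 hP.le hA1 hb hA2
    (sum_nonneg fun _ _ => Nat.cast_nonneg _) (sum_nonneg fun _ _ => Nat.cast_nonneg _)
    (Real.exp_pos _)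
    (by
      rw [← Real.exp_nat_mul, ← Real.exp_add]
      apply Real.exp_le_one_iff.2
      have : κ * m ≤ (((n + m - ss k (n + m)).choose k : ℕ) : ℝ) / NN k (n + m) * Δ :=
        mul_le_mul hkr' hΔm hm0 (hκpos.le.trans hkr')
      push_cast at this ⊢
      linarith only [this]) hA3
    (by
      rw [Real.exp_le_exp, div_le_iff₀ (mul_pos hcpos hnr)]
      have a1 : c * κ * q * m ≤ c * κ * n := by
        calc c * κ * q * m = c * κ * (m * q) := by ring
          _ ≤ _ := mul_le_mul_of_nonneg_left hm2r (mul_pos hcpos hκpos).le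
      have a2 : 4 * (m : ℝ) ≤ c * κ * q * m := mul_le_mul_of_nonneg_right hqc hm0
      calc 2 * (m : ℝ) ^ 2 = m / 2 * (4 * m) := by ring
        _ ≤ m / 2 * (c * κ * n) :=
          mul_le_mul_of_nonneg_left (a2.trans a1) (div_nonneg hm0 two_pos.le)
        _ = _ := by ring)
  unfold expMaximal
  rw [card_formulas', le_div_iff₀ hT0]
  refine le_trans (mul_le_mul_of_nonneg_right ?_ hT0.le) hfin
  clear * - hκpos hq0 hm3r hn3
  have a1 : κ / (8 * q) * n + κ / (8 * q) * n ≤ κ * m / 2 := by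
    calc κ / (8 * q) * n + κ / (8 * q) * n = κ / (4 * q) * n := by field_simp; ring
      _ ≤ κ / (4 * q) * (2 * (m * q)) := by gcongr
      _ = _ := by field_simp; ring
  have a2 : 15 ≤ κ / (8 * q) * n := by
    calc (15 : ℝ) = κ / (8 * q) * (15 * (8 * q / κ)) := by field_simp
      _ ≤ _ := by gcongr
  have a3 := Real.add_one_le_exp (κ / (8 * q) * n)
  have a4 := Real.exp_le_exp.2 a1
  rw [Real.exp_add] at a4
  have a5 := Real.exp_pos (κ / (8 * q) * n)
  linarith only [a4, a5, mul_le_mul_of_nonneg_left (show (16 : ℝ) ≤ _ by linarith only [a2, a3] :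
    (16 : ℝ) ≤ Real.exp (κ / (8 * q) * n)) a5.le]

end Pool.Agent.Work.MP_41c404_pr
end

-- merged part: Pool.Agent.Work.MP_41c404_pr.Main
section
/-! The gap between the satisfiability threshold and the first-moment critical densities. -/

namespace Pool.Agent.Work.MP_41c404_pr

open Finset Filter
open scoped Classical

theorem expMaximal_anti (k n M : ℕ) {i j : ℕ} (h : i ≤ j) :
    expMaximal k j n M ≤ expMaximal k i n M := by
  unfold expMaximal
  apply div_le_div_of_nonneg_right _ (by positivity)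
  apply sum_le_sum
  intro F _
  apply Nat.cast_le.2
  unfold numMaximal
  apply card_le_card
  intro A hA
  simp only [mem_filter, mem_univ, true_and] at hA ⊢
  exact ⟨hA.1, fun ⟨A', h1, h2, h3⟩ => hA.2 ⟨A', h1, h2, h3.trans h⟩⟩

theorem ExpLarge.anti {k i j : ℕ} {d : ℝ} (h : i ≤ j) (hl : ExpLarge k j d) : ExpLarge k i d := by
  obtain ⟨c, hc, h1⟩ := hl
  exact ⟨c, hc, h1.mono fun n hn => hn.trans (expMaximal_anti _ _ _ h)⟩

theorem ExpSmall.mono {k i j : ℕ} {d : ℝ} (h : i ≤ j) (hl : ExpSmall k i d) : ExpSmall k j d := by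
  obtain ⟨c, hc, h1⟩ := hl
  exact ⟨c, hc, h1.mono fun n hn => (expMaximal_anti _ _ _ h).trans hn⟩

theorem not_large_small {k i : ℕ} {d : ℝ} (h1 : ExpLarge k i d) (h2 : ExpSmall k i d) : False := by
  obtain ⟨c, hc, h1⟩ := h1
  obtain ⟨c', hc', h2⟩ := h2
  obtain ⟨n, ⟨h3, h4⟩, h5⟩ := ((h1.and h2).and (eventually_ge_atTop 1)).exists
  have hn : (1 : ℝ) ≤ n := by exact_mod_cast h5
  have := Real.exp_le_exp.1 (h3.trans h4)
  linarith only [hc, this, hc', hn, mul_nonneg_of_nonpos_of_nonpos (Mathlib.Tactic.Linarith.sub_nonpos_of_le (Mathlib.Tactic.Linarith.natCast_nonneg ℝ n)) (le_of_lt (Mathlib.Tactic.Linarith.sub_neg_of_lt hc')), mul_nonneg_of_nonpos_of_nonpos (le_of_lt (Mathlib.Tactic.Linarith.sub_neg_of_lt hc)) (Mathlib.Tactic.Linarith.sub_nonpos_of_le hn)]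

theorem satProb_zero (k n : ℕ) : satProb k n 0 = 1 := by
  unfold satProb formulas
  rw [powersetCard_zero, filter_singleton, if_pos]
  · simp
  · exact ⟨fun _ => true, fun c hc => absurd hc (notMem_empty c)⟩

theorem exists_gap {k : ℕ} (hk : 32 ≤ k) :
    ∃ d : ℝ, satThreshold k < d ∧ 0 ≤ d ∧ ∀ i, ExpLarge k i d := by
  by_cases h : satThreshold k < 0.66 * 2 ^ k
  · exact ⟨_, h, by positivity, fun i => expLarge_planted hk i⟩
  · push Not at h
    have hne : ({d : ℝ | 0 ≤ d ∧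
        Tendsto (fun n : ℕ => satProb k n ⌊d * n⌋₊) atTop (nhds 1)}).Nonempty :=
      ⟨0, le_rfl, by simp [satProb_zero]⟩
    have hle : satThreshold k ≤ 2 ^ k := by
      apply csSup_le hne
      intro d hd
      by_contra hlt
      exact not_sat_of_large k d (not_le.1 hlt).le hd.2
    obtain ⟨δ, hδ, H⟩ := expLarge_tilt hk (satThreshold k) h hle
    obtain ⟨d'', hd1, hd2⟩ := exists_lt_of_lt_csSup hne
      (show satThreshold k - δ < satThreshold k by linarith only [hδ])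
    have h0 : (0 : ℝ) ≤ 0.66 * 2 ^ k := by positivity
    refine ⟨satThreshold k + δ, by linarith only [hδ], by linarith only [h, hle, hδ], fun i => ?_⟩
    exact (H d'' hd2 hd1.2 (i + 1) (by omega)).anti (Nat.le_succ i)

theorem main {k : ℕ} (hk : 32 ≤ k) :
    ∃ L L' : ℝ, Tendsto (critLarge k) atTop (nhds L) ∧ Tendsto (critSmall k) atTop (nhds L') ∧
      satThreshold k < L ∧ L ≤ L' := by
  obtain ⟨d, hd1, hd0, hd2⟩ := exists_gap hk
  have hbdd : ∀ i, BddAbove {d : ℝ | 0 ≤ d ∧ ExpLarge k i d} := fun i =>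
    ⟨2 ^ k, fun x hx => by
      by_contra hlt
      exact not_large_small hx.2 (expMaximal_small k i x (not_le.1 hlt).le)⟩
  have hne : ∀ i, ({d : ℝ | 0 ≤ d ∧ ExpLarge k i d}).Nonempty := fun i => ⟨d, hd0, hd2 i⟩
  have hne' : ∀ i, ({D : ℝ | ∀ d : ℝ, D < d → ExpSmall k i d}).Nonempty := fun i =>
    ⟨2 ^ k, fun x hx => expMaximal_small k i x hx.le⟩
  have hcross : ∀ i, ∀ x ∈ {d : ℝ | 0 ≤ d ∧ ExpLarge k i d},
      ∀ y ∈ {D : ℝ | ∀ d : ℝ, D < d → ExpSmall k i d}, x ≤ y := by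
    intro i x hx y hy
    by_contra hlt
    exact not_large_small hx.2 (hy x (not_le.1 hlt))
  have hbdd' : ∀ i, BddBelow {D : ℝ | ∀ d : ℝ, D < d → ExpSmall k i d} := fun i =>
    ⟨d, fun y hy => hcross i d ⟨hd0, hd2 i⟩ y hy⟩
  have h1 : ∀ i, d ≤ critLarge k i := fun i => le_csSup (hbdd i) ⟨hd0, hd2 i⟩
  have h2 : ∀ i, critLarge k i ≤ critSmall k i := fun i =>
    csSup_le (hne i) fun x hx => le_csInf (hne' i) fun y hy => hcross i x hx y hy
  have a1 : Antitone (critLarge k) := fun i j hij =>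
    csSup_le_csSup (hbdd i) (hne j) fun x hx => ⟨hx.1, hx.2.anti hij⟩
  have a2 : Antitone (critSmall k) := fun i j hij =>
    csInf_le_csInf (hbdd' j) (hne' i) fun x hx y hy => (hx y hy).mono hij
  have b1 : BddBelow (Set.range (critLarge k)) := ⟨d, by rintro _ ⟨i, rfl⟩; exact h1 i⟩
  have b2 : BddBelow (Set.range (critSmall k)) :=
    ⟨d, by rintro _ ⟨i, rfl⟩; exact (h1 i).trans (h2 i)⟩
  have t1 := tendsto_atTop_ciInf a1 b1
  have t2 := tendsto_atTop_ciInf a2 b2
  exact ⟨_, _, t1, t2, hd1.trans_le (le_ciInf h1), le_of_tendsto_of_tendsto' t1 t2 h2⟩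

end Pool.Agent.Work.MP_41c404_pr
end
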